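import Pool.Agent.Lib.MP_1707ab_an.N2.SpecA

/-!
# MP_1707ab_an, n = 2, PART A, module AMAIN (helper58)

Assembly: networks imply the frozen negation.
-/

set_option autoImplicit false

open scoped Topology BigOperators Classical
open MeasureTheory

namespace MP1707

namespace AMain

/-- the scale of layer `k` -/
noncomputable def s (k : ℕ) : ℝ := (1 / 2 : ℝ) ^ (k + 1)

theorem s_pos (k : ℕ) : 0 < s k := by unfold s; positivity

theorem s_ne (k : ℕ) : (s k : ℂ) ≠ 0 := by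
  exact_mod_cast (s_pos k).ne'

theorem s_le (k : ℕ) : s k ≤ 1 / 2 := by
  unfold s
  rw [pow_succ]
  have : (1 / 2 : ℝ) ^ k ≤ 1 := pow_le_one₀ (by norm_num) (by norm_num)
  linarith

theorem s_two (k : ℕ) : 2 * s k = (1 / 2 : ℝ) ^ k := by
  unfold s
  rw [pow_succ]
  ring

/-- the affine map of layer `k` -/
noncomputable def phi (k : ℕ) : ℂ ≃ₜ ℂ where
  toFun z := s k * z + s k * Complex.I
  invFun z := (1 / (s k : ℂ)) * z - Complex.I
  left_inv z := by
    have := s_ne k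
    field_simp
    ring
  right_inv z := by
    have := s_ne k
    field_simp
    ring
  continuous_toFun := by fun_prop
  continuous_invFun := by fun_prop

theorem phi_apply (k : ℕ) (z : ℂ) : phi k z = s k * z + s k * Complex.I := rfl

theorem phi_symm_apply (k : ℕ) (z : ℂ) : (phi k).symm z = (1 / (s k : ℂ)) * z - Complex.I := rfl

theorem phi_re (k : ℕ) (z : ℂ) : (phi k z).re = s k * z.re := by
  simp [phi_apply]

theorem phi_im (k : ℕ) (z : ℂ) : (phi k z).im = s k * z.im + s k := by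
  simp [phi_apply]

theorem phi_hasDerivAt (k : ℕ) (z : ℂ) : HasDerivAt (fun z => phi k z) (s k : ℂ) z := by
  have h : HasDerivAt (fun z : ℂ => (s k : ℂ) * z + (s k : ℂ) * Complex.I) ((s k : ℂ) * 1) z :=
    ((hasDerivAt_id' z).const_mul (s k : ℂ)).add_const _
  rw [mul_one] at h
  exact h

/-- scaled polynomial -/
noncomputable def sp (c α β : ℂ) (Q : Polynomial ℂ) : Polynomial ℂ :=
  Polynomial.C c * Q.comp (Polynomial.C α * Polynomial.X - Polynomial.C β)

theorem sp_eval (c α β : ℂ) (Q : Polynomial ℂ) (z : ℂ) :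
    (sp c α β Q).eval z = c * Q.eval (α * z - β) := by
  simp [sp]

theorem sp_derivative (c α β : ℂ) (Q : Polynomial ℂ) :
    (sp c α β Q).derivative = sp (c * α) α β Q.derivative := by
  simp only [sp, Polynomial.derivative_mul, Polynomial.derivative_C, Polynomial.derivative_comp,
    Polynomial.derivative_sub, Polynomial.derivative_X, Polynomial.C_mul]
  ring

/-- segments of a network -/
def Sg {X δ : ℝ} (N : Net X δ) : Type := Σ e : N.E, Fin (N.m e)

instance {X δ : ℝ} (N : Net X δ) : Finite (Sg N) := inferInstanceAs (Finite (Σ e : N.E, Fin (N.m e)))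

/-- left end -/
def lq {X δ : ℝ} (N : Net X δ) (i : Sg N) : ℂ := N.z i.1 i.2
/-- right end -/
def rq {X δ : ℝ} (N : Net X δ) (i : Sg N) : ℂ := N.z i.1 (i.2 + 1)

/-- thin rhombi and quintics of a network -/
theorem data (hRho : SpecRho) (hThin : SpecThin) (hQ : SpecQuint) {X δ : ℝ} (N : Net X δ) :
    ∃ (ε : ℝ) (Q : Sg N → Polynomial ℂ), 0 < ε ∧
      (∀ i, crho ε (lq N i) (rq N i) ⊆ {z | |z.re| < X + 1 ∧ 0 < z.im ∧ z.im < 1}) ∧
      (∀ i j, i ≠ j → Disjoint (rho ε (lq N i) (rq N i)) (rho ε (lq N j) (rq N j))) ∧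
      (∀ i j, ∀ x ∈ crho ε (lq N i) (rq N i), x ∈ crho ε (lq N j) (rq N j) →
        (Q i).eval x = (Q j).eval x ∧ (Q i).derivative.eval x = (Q j).derivative.eval x ∧
        (Q i).derivative.derivative.eval x = (Q j).derivative.derivative.eval x) ∧
      (∀ i, ∀ x ∈ crho ε (lq N i) (rq N i), ‖(Q i).eval x‖ ≤ 2 ∧ ‖(Q i).derivative.eval x‖ ≤ 2 ∧
        ‖(Q i).derivative.derivative.eval x‖ ≤ 2) ∧
      (∀ i, (Q i).eval (lq N i) = N.j0 i.1 i.2 ∧ (Q i).derivative.eval (lq N i) = N.j1 i.1 i.2) := by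
  set O : Set ℂ := {z | |z.re| < X + 1 ∧ 0 < z.im ∧ z.im < 1} with hO
  have hOo : IsOpen O := by
    refine (isOpen_lt (continuous_abs.comp Complex.continuous_re) continuous_const).inter
      ((isOpen_lt continuous_const Complex.continuous_im).inter
        (isOpen_lt Complex.continuous_im continuous_const))
  have hne : ∀ i : Sg N, lq N i ≠ rq N i := fun i => (N.ne i.1 i.2 i.2.2).symm
  have hOc : Convex ℝ O := by
    have h1 : O = Complex.reLm ⁻¹' (Set.Ioo (-(X + 1)) (X + 1)) ∩ Complex.imLm ⁻¹' (Set.Ioo 0 1) := by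
      ext z
      simp [hO, abs_lt]
    rw [h1]
    exact ((convex_Ioo _ _).linear_preimage _).inter ((convex_Ioo _ _).linear_preimage _)
  have hnode : ∀ e i, i ≤ N.m e → N.z e i ∈ O := fun e i hi =>
    ⟨lt_of_le_of_lt (N.re_le e i hi) (by linarith), N.im_pos e i hi, N.im_lt e i hi⟩
  have hseg : ∀ i : Sg N, segment ℝ (lq N i) (rq N i) ⊆ O := fun i =>
    hOc.segment_subset (hnode _ _ i.2.2.le) (hnode _ _ i.2.2)
  have hpl : ∀ i j : Sg N, i ≠ j → ∀ x ∈ segment ℝ (lq N i) (rq N i), x ∈ segment ℝ (lq N j) (rq N j) →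
      (x = lq N i ∨ x = rq N i) ∧ (x = lq N j ∨ x = rq N j) := by
    rintro ⟨e, i⟩ ⟨e', i'⟩ hij x hx hx'
    refine N.planar e i e' i' i.2 i'.2 ?_ x hx hx'
    intro heq
    apply hij
    simp only [Prod.mk.injEq] at heq
    obtain ⟨h1, h2⟩ := heq
    subst h1
    congr 1
    exact Fin.ext h2
  obtain ⟨ε, hε, hε', hεO, hεp⟩ := hThin (Sg N) (lq N) (rq N) O hOo hne hseg hpl
  have hquint := fun i : Sg N => hQ (lq N i) (rq N i) (N.j0 i.1 i.2) (N.j1 i.1 i.2) (N.j0 i.1 (i.2 + 1))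
    (N.j1 i.1 (i.2 + 1)) (hne i) (N.len i.1 i.2 i.2.2) (N.j0b i.1 i.2 i.2.2.le) (N.j1b i.1 i.2 i.2.2.le)
    (N.herm i.1 i.2 i.2.2) (N.herm' i.1 i.2 i.2.2)
  choose Q hQ0 hQ1 hQ2 hQ3 hQ4 hQ5 hQb using hquint
  have hval : ∀ i : Sg N, ∀ x, (x = lq N i ∨ x = rq N i) → ∃ n ≤ N.m i.1, x = N.z i.1 n ∧
      (Q i).eval x = N.j0 i.1 n ∧ (Q i).derivative.eval x = N.j1 i.1 n ∧
      (Q i).derivative.derivative.eval x = 0 := by
    rintro i x (rfl | rfl)
    · exact ⟨i.2, i.2.2.le, rfl, hQ0 i, hQ1 i, hQ2 i⟩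
    · exact ⟨i.2 + 1, i.2.2, rfl, hQ3 i, hQ4 i, hQ5 i⟩
  have hmono : ∀ i, crho ε (lq N i) (rq N i) ⊆ crho (1 / 10) (lq N i) (rq N i) := fun i =>
    (hRho ε (lq N i) (rq N i) hε (hne i)).2.2.2.2.2.1 (1 / 10) hε'
  have hcl : ∀ i, rho ε (lq N i) (rq N i) ⊆ crho ε (lq N i) (rq N i) := by
    intro i z hz
    have hz' : |(tc (lq N i) (rq N i) z).im| <
      ε * min (tc (lq N i) (rq N i) z).re (1 - (tc (lq N i) (rq N i) z).re) := hz
    exact (le_of_lt hz' : |(tc (lq N i) (rq N i) z).im| ≤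
      ε * min (tc (lq N i) (rq N i) z).re (1 - (tc (lq N i) (rq N i) z).re))
  refine ⟨ε, Q, hε, hεO, ?_, ?_, ?_, ?_⟩
  · intro i j hij
    rw [Set.disjoint_left]
    intro x hx hx'
    have h := (hεp i j hij x (hcl i hx) (hcl j hx')).1
    -- endpoints do not lie in the open rhombus
    have hx0 : |(tc (lq N i) (rq N i) x).im| < ε * min (tc (lq N i) (rq N i) x).re
      (1 - (tc (lq N i) (rq N i) x).re) := hx
    have hd : rq N i - lq N i ≠ 0 := sub_ne_zero.2 (hne i).symm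
    rcases h with h | h
    · rw [h] at hx0
      simp [tc] at hx0
    · rw [h] at hx0
      simp [tc, div_self hd] at hx0
  · intro i j x hx hx'
    by_cases hij : i = j
    · subst hij
      exact ⟨rfl, rfl, rfl⟩
    · obtain ⟨h1, h2⟩ := hεp i j hij x hx hx'
      obtain ⟨n, hn, hxn, e0, e1, e2⟩ := hval i x h1
      obtain ⟨n', hn', hxn', e0', e1', e2'⟩ := hval j x h2
      obtain ⟨g0, g1⟩ := N.jet i.1 n j.1 n' hn hn' (hxn ▸ hxn')
      exact ⟨by rw [e0, e0', g0], by rw [e1, e1', g1], by rw [e2, e2']⟩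
  · intro i x hx
    exact hQb i x (hmono i hx)
  · intro i
    exact ⟨hQ0 i, hQ1 i⟩

/-- Kirchhoff and telescoping in layer `k`. -/
theorem flux_of (hSeg : SpecSegm) (hFlux : SpecFlux) {X δ : ℝ} (N : Net X δ) (k : ℕ)
    (W : Set ℂ) (M : ℝ) (hM : 0 ≤ M) (U0 U1 U2 : ℂ → ℂ)
    (hc0 : ContinuousOn U0 (closure W)) (hc1 : ContinuousOn U1 (closure W))
    (hc2 : ContinuousOn U2 (closure W))
    (hd0 : ∀ z ∈ W, HasDerivAt U0 (U1 z) z) (hd1 : ∀ z ∈ W, HasDerivAt U1 (U2 z) z)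
    (hb : ∀ z ∈ closure W, ‖U2 z‖ ≤ M)
    (hW : ∀ i : Sg N, ∀ t : ℝ, 0 < t → t < 1 → phi k (lq N i + t * (rq N i - lq N i)) ∈ W)
    (hW' : ∀ i : Sg N, ∀ t : ℝ, 0 ≤ t → t ≤ 1 → phi k (lq N i + t * (rq N i - lq N i)) ∈ closure W) :
    ‖TR N (fun z => U0 (phi k z)) (fun z => s k * U1 (phi k z)) -
      TL N (fun z => U0 (phi k z)) (fun z => s k * U1 (phi k z))‖ ≤ M * (s k) ^ 2 * δ := by
  refine hFlux X δ N _ _ (M * (s k) ^ 2) (by positivity) ?_
  intro e i hi
  have hW2 := hW' ⟨e, i, hi⟩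
  have hW1 := hW ⟨e, i, hi⟩
  simp only [lq, rq] at hW1 hW2
  set p := N.z e i with hp
  set q := N.z e (i + 1) with hq
  have hmap : Continuous fun t : ℝ => phi k (p + t * (q - p)) := by
    refine (phi k).continuous.comp ?_
    fun_prop
  have hmaps : Set.MapsTo (fun t : ℝ => phi k (p + t * (q - p))) (Set.Icc 0 1) (closure W) :=
    fun t ht => hW2 t ht.1 ht.2
  have key := hSeg p q (N.a e) (N.b e) (M * (s k) ^ 2) (fun z => U0 (phi k z))
    (fun z => s k * U1 (phi k z)) (fun z => s k * (s k * U2 (phi k z)))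
    (hc0.comp hmap.continuousOn hmaps)
    (continuousOn_const.mul (hc1.comp hmap.continuousOn hmaps))
    (continuousOn_const.mul (continuousOn_const.mul (hc2.comp hmap.continuousOn hmaps)))
    ?_ ?_ ?_
  · simpa [mul_assoc] using key
  · intro t ht ht'
    have h1 := (hd0 _ (hW1 t ht ht')).comp (p + t * (q - p)) (phi_hasDerivAt k (p + t * (q - p)))
    rw [mul_comm] at h1
    exact h1
  · intro t ht ht'
    have h1 := (hd1 _ (hW1 t ht ht')).comp (p + t * (q - p)) (phi_hasDerivAt k (p + t * (q - p)))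
    rw [mul_comm] at h1
    exact h1.const_mul (s k : ℂ)
  · intro t ht ht'
    have h2 := hb _ (hW2 t ht ht')
    rw [norm_mul, norm_mul, Complex.norm_real, Real.norm_of_nonneg (s_pos k).le]
    have h3 := s_pos k
    calc s k * (s k * ‖U2 (phi k (p + t * (q - p)))‖) ≤ s k * (s k * M) := by gcongr
      _ = M * (s k) ^ 2 := by ring

/-- first and second derivatives of a scaled function -/
theorem deriv_phi (k : ℕ) (Ω : Set ℂ) (hΩ : IsOpen Ω) (u : ℂ → ℂ) (hu : DifferentiableOn ℂ u Ω) :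
    DifferentiableOn ℂ (fun z => u (phi k z)) (phi k ⁻¹' Ω) ∧
    (∀ z ∈ phi k ⁻¹' Ω, deriv (fun z => u (phi k z)) z = s k * deriv u (phi k z)) ∧
    (∀ z ∈ phi k ⁻¹' Ω, deriv (deriv (fun z => u (phi k z))) z =
      s k * (s k * deriv (deriv u) (phi k z))) := by
  have hop : IsOpen (phi k ⁻¹' Ω) := hΩ.preimage (phi k).continuous
  have h1 : ∀ z ∈ phi k ⁻¹' Ω, HasDerivAt (fun z => u (phi k z)) (s k * deriv u (phi k z)) z := by
    intro z hz
    have h := ((hu.differentiableAt (hΩ.mem_nhds hz)).hasDerivAt).comp z (phi_hasDerivAt k z)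
    rw [mul_comm] at h
    exact h
  have hu' : DifferentiableOn ℂ (deriv u) Ω := hu.deriv hΩ
  refine ⟨fun z hz => (h1 z hz).differentiableAt.differentiableWithinAt, fun z hz => (h1 z hz).deriv, ?_⟩
  intro z hz
  have h2 : deriv (fun z => u (phi k z)) =ᶠ[𝓝 z] fun z => s k * deriv u (phi k z) := by
    filter_upwards [hop.mem_nhds hz] with y hy
    exact (h1 y hy).deriv
  rw [h2.deriv_eq]
  have h := ((hu'.differentiableAt (hΩ.mem_nhds hz)).hasDerivAt).comp z (phi_hasDerivAt k z)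
  rw [mul_comm] at h
  exact (h.const_mul (s k : ℂ)).deriv

theorem line_right (hLine : SpecLine) {X δ : ℝ} (N : Net X δ) (k : ℕ) (Ω : Set ℂ) (hΩ : IsOpen Ω)
    (u : ℂ → ℂ) (hu : DifferentiableOn ℂ u Ω) (U0 U1 : ℂ → ℂ) (hU0 : Set.EqOn U0 u Ω)
    (hU1 : Set.EqOn U1 (deriv u) Ω) (M : ℝ) (hM : 0 ≤ M)
    (hX : ∀ t : ℝ, 0 ≤ t → t ≤ 1 → phi k ⟨X, t⟩ ∈ Ω ∧ ‖deriv (deriv u) (phi k ⟨X, t⟩)‖ ≤ M) :
    ‖TR N (fun z => U0 (phi k z)) (fun z => s k * U1 (phi k z))‖ ≤ M * (s k) ^ 2 * δ := by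
  obtain ⟨hd, hd1, hd2⟩ := deriv_phi k Ω hΩ u hu
  have h := (hLine X δ N (fun z => u (phi k z)) (phi k ⁻¹' Ω) (M * (s k) ^ 2) (by positivity)
    (hΩ.preimage (phi k).continuous) hd).2 ?_
  · have heq : TR N (fun z => U0 (phi k z)) (fun z => s k * U1 (phi k z)) =
        TR N (fun z => u (phi k z)) (deriv (fun z => u (phi k z))) := by
      unfold TR
      refine Finset.sum_congr rfl fun e _ => ?_
      split_ifs with hre
      · have hmem : phi k (N.z e (N.m e)) ∈ Ω := by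
          have hz : N.z e (N.m e) = ⟨X, (N.z e (N.m e)).im⟩ := Complex.ext hre rfl
          rw [hz]
          exact (hX _ (N.im_pos e _ le_rfl).le (N.im_lt e _ le_rfl).le).1
        rw [hd1 _ hmem]
        simp only
        rw [hU0 hmem, hU1 hmem]
      · rfl
    rw [heq]
    exact h
  · intro t ht ht'
    obtain ⟨h1, h2⟩ := hX t ht ht'
    refine ⟨h1, ?_⟩
    rw [hd2 _ h1, norm_mul, norm_mul, Complex.norm_real, Real.norm_of_nonneg (s_pos k).le]
    have h3 := s_pos k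
    calc s k * (s k * ‖deriv (deriv u) (phi k ⟨X, t⟩)‖) ≤ s k * (s k * M) := by gcongr
      _ = M * (s k) ^ 2 := by ring

theorem line_left (hLine : SpecLine) {X δ : ℝ} (N : Net X δ) (k : ℕ) (Ω : Set ℂ) (hΩ : IsOpen Ω)
    (u : ℂ → ℂ) (hu : DifferentiableOn ℂ u Ω) (U0 U1 : ℂ → ℂ) (hU0 : Set.EqOn U0 u Ω)
    (hU1 : Set.EqOn U1 (deriv u) Ω) (M : ℝ) (hM : 0 ≤ M)
    (hX : ∀ t : ℝ, 0 ≤ t → t ≤ 1 → phi k ⟨-X, t⟩ ∈ Ω ∧ ‖deriv (deriv u) (phi k ⟨-X, t⟩)‖ ≤ M) :
    ‖TL N (fun z => U0 (phi k z)) (fun z => s k * U1 (phi k z))‖ ≤ M * (s k) ^ 2 * δ := by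
  obtain ⟨hd, hd1, hd2⟩ := deriv_phi k Ω hΩ u hu
  have h := (hLine X δ N (fun z => u (phi k z)) (phi k ⁻¹' Ω) (M * (s k) ^ 2) (by positivity)
    (hΩ.preimage (phi k).continuous) hd).1 ?_
  · have heq : TL N (fun z => U0 (phi k z)) (fun z => s k * U1 (phi k z)) =
        TL N (fun z => u (phi k z)) (deriv (fun z => u (phi k z))) := by
      unfold TL
      refine Finset.sum_congr rfl fun e _ => ?_
      split_ifs with hre
      · have hmem : phi k (N.z e 0) ∈ Ω := by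
          have hz : N.z e 0 = ⟨-X, (N.z e 0).im⟩ := Complex.ext hre rfl
          rw [hz]
          exact (hX _ (N.im_pos e _ (Nat.zero_le _)).le (N.im_lt e _ (Nat.zero_le _)).le).1
        rw [hd1 _ hmem]
        simp only
        rw [hU0 hmem, hU1 hmem]
      · rfl
    rw [heq]
    exact h
  · intro t ht ht'
    obtain ⟨h1, h2⟩ := hX t ht ht'
    refine ⟨h1, ?_⟩
    rw [hd2 _ h1, norm_mul, norm_mul, Complex.norm_real, Real.norm_of_nonneg (s_pos k).le]
    have h3 := s_pos k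
    calc s k * (s k * ‖deriv (deriv u) (phi k ⟨-X, t⟩)‖) ≤ s k * (s k * M) := by gcongr
      _ = M * (s k) ^ 2 := by ring

/-- unpacking of membership in `A² (T)` -/
theorem unpack (T : Set ℂ) (hT : IsClosed T) (u : ℂ → ℂ)
    (h : DifferentiableOn ℂ u Tᶜ ∧ ∀ k ≤ 2, ∃ g : ℂ → ℂ, ContinuousOn g (Tᶜ ∪ frontier T) ∧
      Set.EqOn g (iteratedDeriv k u) Tᶜ) :
    ∃ U0 U1 U2 : ℂ → ℂ, ContinuousOn U0 (closure Tᶜ) ∧ ContinuousOn U1 (closure Tᶜ) ∧
      ContinuousOn U2 (closure Tᶜ) ∧ Set.EqOn U0 u Tᶜ ∧ Set.EqOn U1 (deriv u) Tᶜ ∧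
      Set.EqOn U2 (deriv (deriv u)) Tᶜ ∧ (∀ z ∈ Tᶜ, HasDerivAt U0 (U1 z) z) ∧
      (∀ z ∈ Tᶜ, HasDerivAt U1 (U2 z) z) := by
  obtain ⟨hd, h⟩ := h
  obtain ⟨U0, hc0, he0⟩ := h 0 (by norm_num)
  obtain ⟨U1, hc1, he1⟩ := h 1 (by norm_num)
  obtain ⟨U2, hc2, he2⟩ := h 2 (by norm_num)
  have hcl : closure Tᶜ = Tᶜ ∪ frontier T := by
    rw [closure_eq_self_union_frontier, frontier_compl]
  rw [← hcl] at hc0 hc1 hc2
  rw [iteratedDeriv_zero] at he0
  rw [iteratedDeriv_one] at he1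
  have he2' : Set.EqOn U2 (deriv (deriv u)) Tᶜ := by
    have h2 : iteratedDeriv 2 u = deriv (deriv u) := by
      rw [iteratedDeriv_succ, iteratedDeriv_one]
    rw [h2] at he2
    exact he2
  have hop : IsOpen Tᶜ := hT.isOpen_compl
  refine ⟨U0, U1, U2, hc0, hc1, hc2, he0, he1, he2', ?_, ?_⟩
  · intro z hz
    have h1 : U0 =ᶠ[𝓝 z] u := by
      filter_upwards [hop.mem_nhds hz] with y hy
      exact he0 hy
    rw [he1 hz]
    exact ((hd.differentiableAt (hop.mem_nhds hz)).hasDerivAt).congr_of_eventuallyEq h1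
  · intro z hz
    have h1 : U1 =ᶠ[𝓝 z] deriv u := by
      filter_upwards [hop.mem_nhds hz] with y hy
      exact he1 hy
    rw [he2' hz]
    exact (((hd.deriv hop).differentiableAt (hop.mem_nhds hz)).hasDerivAt).congr_of_eventuallyEq h1

end AMain

open AMain

theorem specAMain : SpecAMain := by
  intro hRho hThin hQuint hSegm hFlux hLine hGlue hNet hAll
  -- the networks
  have hL : ∀ k : ℕ, (1 : ℝ) ≤ 3 / 4 / s k := by
    intro k
    rw [le_div_iff₀ (s_pos k)]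
    have := s_le k
    linarith
  have hN := fun k : ℕ => hNet (3 / 4 / s k) ((1 / 4 : ℝ) ^ k) (hL k) (by positivity)
  choose X hX1 hX2 hN using hN
  have N : ∀ k, Net (X k) ((1 / 4 : ℝ) ^ k) := fun k => (hN k).some
  have hX0 : ∀ k, 0 ≤ X k := fun k => by linarith [hL k, hX1 k]
  have hsX1 : ∀ k, 3 / 4 ≤ s k * X k := by
    intro k
    have h1 := hX1 k
    rw [div_le_iff₀ (s_pos k)] at h1
    linarith
  have hsX2 : ∀ k, s k * X k ≤ 3 / 4 + s k := by
    intro k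
    have h1 := hX2 k
    have h2 := s_pos k
    calc s k * X k ≤ s k * (3 / 4 / s k + 1) := by gcongr
      _ = 3 / 4 + s k := by field_simp
  -- thin rhombi and quintics
  choose ε Q hε hεO hdis hag hQb hQj using fun k => data hRho hThin hQuint (N k)
  have hne : ∀ k (i : Sg (N k)), lq (N k) i ≠ rq (N k) i := fun k i => ((N k).ne i.1 i.2 i.2.2).symm
  have hrho := fun k (i : Sg (N k)) => hRho (ε k) (lq (N k) i) (rq (N k) i) (hε k) (hne k i)
  let R : (k : ℕ) → Sg (N k) → Set ℂ := fun k i => (phi k).symm ⁻¹' rho (ε k) (lq (N k) i) (rq (N k) i)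
  let P : (k : ℕ) → Sg (N k) → Polynomial ℂ := fun k i =>
    sp (((1 / 2 : ℝ) ^ k * (s k) ^ 2 : ℝ) : ℂ) (1 / (s k : ℂ)) Complex.I (Q k i)
  have hRopen : ∀ k i, IsOpen (R k i) := fun k i => (hrho k i).1.preimage (phi k).symm.continuous
  have hRcl : ∀ k i, closure (R k i) = (phi k).symm ⁻¹' crho (ε k) (lq (N k) i) (rq (N k) i) := by
    intro k i
    show closure ((phi k).symm ⁻¹' rho (ε k) (lq (N k) i) (rq (N k) i)) = _
    rw [← (phi k).symm.preimage_closure, (hrho k i).2.1]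
  have hP0 : ∀ k i x, (P k i).eval x = ((1 / 2 : ℝ) ^ k * (s k) ^ 2 : ℝ) * (Q k i).eval ((phi k).symm x) := by
    intro k i x
    show (sp _ _ _ _).eval x = _
    rw [sp_eval, phi_symm_apply]
  have hP1 : ∀ k i x, (P k i).derivative.eval x =
      ((1 / 2 : ℝ) ^ k * s k : ℝ) * (Q k i).derivative.eval ((phi k).symm x) := by
    intro k i x
    show (sp _ _ _ _).derivative.eval x = _
    rw [sp_derivative, sp_eval, phi_symm_apply]
    have := s_ne k
    congr 1
    push_cast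
    field_simp
  have hP2 : ∀ k i x, (P k i).derivative.derivative.eval x =
      ((1 / 2 : ℝ) ^ k : ℝ) * (Q k i).derivative.derivative.eval ((phi k).symm x) := by
    intro k i x
    show (sp _ _ _ _).derivative.derivative.eval x = _
    rw [sp_derivative, sp_derivative, sp_eval, phi_symm_apply]
    have := s_ne k
    congr 1
    push_cast
    field_simp
  -- the function
  have q1 : ∀ k i, closure (R k i) ⊆
      {z | |z.re| ≤ 2 ∧ (1 / 2 : ℝ) ^ (k + 1) < z.im ∧ z.im < (1 / 2 : ℝ) ^ k} := by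
    -- location of the closures
    intro k i x hx
    rw [hRcl] at hx
    have h1 := hεO k i hx
    obtain ⟨h2, h3, h4⟩ := h1
    have hxx : x = phi k ((phi k).symm x) := ((phi k).apply_symm_apply x).symm
    set y := (phi k).symm x with hy
    have hs := s_pos k
    have hs2 := s_two k
    have hre : |x.re| = s k * |y.re| := by
      rw [hxx, phi_re, abs_mul, abs_of_pos hs]
    have him : x.im = s k * y.im + s k := by
      rw [hxx, phi_im]
    refine ⟨?_, ?_, ?_⟩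
    · rw [hre]
      have h5 : s k * |y.re| ≤ s k * (X k + 1) := by gcongr
      have h6 := hsX2 k
      have h7 := s_le k
      linarith
    · rw [him]
      show s k < _
      have : 0 < s k * y.im := mul_pos hs h3
      linarith
    · rw [him, ← hs2]
      have : s k * y.im < s k * 1 := by gcongr
      linarith
  have q2 : ∀ k i j, i ≠ j → Disjoint (R k i) (R k j) := by
    intro k i j hij
    exact (hdis k i j hij).preimage _
  have q3 : ∀ k i j, ∀ x ∈ closure (R k i), x ∈ closure (R k j) →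
      (P k i).eval x = (P k j).eval x ∧ (P k i).derivative.eval x = (P k j).derivative.eval x ∧
      (P k i).derivative.derivative.eval x = (P k j).derivative.derivative.eval x := by
    intro k i j x hx hx'
    rw [hRcl] at hx hx'
    obtain ⟨e0, e1, e2⟩ := hag k i j _ hx hx'
    rw [hP0, hP0, hP1, hP1, hP2, hP2, e0, e1, e2]
    exact ⟨rfl, rfl, rfl⟩
  have q4 : ∀ k i, ∀ x ∈ closure (R k i), ‖(P k i).eval x‖ ≤ 2 * (1 / 2 : ℝ) ^ k ∧
      ‖(P k i).derivative.eval x‖ ≤ 2 * (1 / 2 : ℝ) ^ k ∧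
      ‖(P k i).derivative.derivative.eval x‖ ≤ 2 * (1 / 2 : ℝ) ^ k := by
    intro k i x hx
    rw [hRcl] at hx
    obtain ⟨e0, e1, e2⟩ := hQb k i _ hx
    have hs := s_pos k
    have hs1 : s k ≤ 1 := by linarith [s_le k]
    have hh : (0 : ℝ) < (1 / 2 : ℝ) ^ k := by positivity
    rw [hP0, hP1, hP2, norm_mul, norm_mul, norm_mul, Complex.norm_real, Complex.norm_real,
      Complex.norm_real, Real.norm_of_nonneg (by positivity : (0 : ℝ) ≤ (1 / 2 : ℝ) ^ k * (s k) ^ 2),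
      Real.norm_of_nonneg (by positivity : (0 : ℝ) ≤ (1 / 2 : ℝ) ^ k * (s k)), Real.norm_of_nonneg hh.le]
    have hs22 : (s k) ^ 2 ≤ 1 := pow_le_one₀ hs.le hs1
    refine ⟨?_, ?_, ?_⟩
    · calc (1 / 2 : ℝ) ^ k * (s k) ^ 2 * ‖(Q k i).eval ((phi k).symm x)‖ ≤ (1 / 2 : ℝ) ^ k * 1 * 2 := by
            gcongr
        _ = 2 * (1 / 2 : ℝ) ^ k := by ring
    · calc (1 / 2 : ℝ) ^ k * (s k) * ‖(Q k i).derivative.eval ((phi k).symm x)‖ ≤
            (1 / 2 : ℝ) ^ k * 1 * 2 := by gcongr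
        _ = 2 * (1 / 2 : ℝ) ^ k := by ring
    · calc (1 / 2 : ℝ) ^ k * ‖(Q k i).derivative.derivative.eval ((phi k).symm x)‖ ≤
            (1 / 2 : ℝ) ^ k * 2 := by gcongr
        _ = 2 * (1 / 2 : ℝ) ^ k := by ring
  obtain ⟨f, hfd, hfg⟩ := hGlue (fun k => Sg (N k)) R P hRopen q1 q2 q3 q4
  -- the sets
  set W : Set ℂ := ⋃ k, ⋃ i, R k i with hWdef
  have hWo : IsOpen W := isOpen_iUnion fun k => isOpen_iUnion fun i => hRopen k i
  have hRW : ∀ k i, R k i ⊆ W := fun k i x hx => Set.mem_iUnion.2 ⟨k, Set.mem_iUnion.2 ⟨i, hx⟩⟩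
  have hfrW : ∀ T : Set ℂ, Tᶜ ∪ frontier T = closure Tᶜ := by
    intro T
    rw [closure_eq_self_union_frontier, frontier_compl]
  set S : Set ℂ := Wᶜ with hSdef
  have hSc : Sᶜ = W := compl_compl W
  have hScl : IsClosed S := hWo.isClosed_compl
  set S1 : Set ℂ := S ∩ {z | z.re ≤ 1 / 2} with hS1def
  set S2 : Set ℂ := S ∩ {z | -(1 / 2) ≤ z.re} with hS2def
  have hS1cl : IsClosed S1 := hScl.inter (isClosed_le Complex.continuous_re continuous_const)
  have hS2cl : IsClosed S2 := hScl.inter (isClosed_le continuous_const Complex.continuous_re)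
  have hSu : S = S1 ∪ S2 := by
    ext z
    constructor
    · intro hz
      rcases le_total z.re 0 with h | h
      · left
        refine ⟨hz, ?_⟩
        show z.re ≤ 1 / 2
        linarith
      · right
        refine ⟨hz, ?_⟩
        show -(1 / 2) ≤ z.re
        linarith
    · rintro (hz | hz)
      · exact hz.1
      · exact hz.1
  have hloc : ∀ z ∈ S, (∃ U ∈ 𝓝 z, U ∩ S ⊆ S1) ∨ (∃ U ∈ 𝓝 z, U ∩ S ⊆ S2) := by
    intro z hz
    by_cases h : z.re < 1 / 2
    · left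
      refine ⟨{z | z.re < 1 / 2}, (isOpen_lt Complex.continuous_re continuous_const).mem_nhds h, ?_⟩
      rintro y ⟨hy1, hy2⟩
      have hy3 : y.re < 1 / 2 := hy1
      exact ⟨hy2, (hy3.le : y.re ≤ 1 / 2)⟩
    · right
      push Not at h
      refine ⟨{z | -(1 / 2) < z.re}, (isOpen_lt continuous_const Complex.continuous_re).mem_nhds ?_, ?_⟩
      · show -(1 / 2) < z.re
        linarith
      · rintro y ⟨hy1, hy2⟩
        have hy3 : -(1 / 2) < y.re := hy1
        exact ⟨hy2, (hy3.le : -(1 / 2) ≤ y.re)⟩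
  -- `f ∈ A²(S)`
  have hfA : DifferentiableOn ℂ f Sᶜ ∧ ∀ k ≤ 2, ∃ g : ℂ → ℂ, ContinuousOn g (Sᶜ ∪ frontier S) ∧
      Set.EqOn g (iteratedDeriv k f) Sᶜ := by
    rw [hfrW, hSc]
    refine ⟨hfd, fun n hn => ?_⟩
    obtain ⟨g, hg1, hg2, -⟩ := hfg n hn
    exact ⟨g, hg1, hg2⟩
  have hmain := (hAll (fun T n => {f | DifferentiableOn ℂ f Tᶜ ∧
          ∀ k ≤ n, ∃ g : ℂ → ℂ, ContinuousOn g (Tᶜ ∪ frontier T) ∧
            Set.EqOn g (iteratedDeriv k f) Tᶜ}) (fun T n f => Iff.rfl) S S1 S2 hScl hS1cl hS2cl hSu hloc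
            2 (by norm_num) f).1 hfA
  obtain ⟨f1, hf1, f2, hf2, hff⟩ := hmain
  rw [hSc] at hff
  obtain ⟨V0, V1, V2, cV0, cV1, cV2, eV0, eV1, eV2, dV0, dV1⟩ := unpack S1 hS1cl f1 hf1
  obtain ⟨Y0, Y1, Y2, cY0, cY1, cY2, eY0, eY1, eY2, dY0, dY1⟩ := unpack S2 hS2cl f2 hf2
  have hW1 : W ⊆ S1ᶜ := by
    intro z hz h
    exact h.1 hz
  have hW2 : W ⊆ S2ᶜ := by
    intro z hz h
    exact h.1 hz
  have hcW1 : closure W ⊆ closure S1ᶜ := closure_mono hW1
  have hcW2 : closure W ⊆ closure S2ᶜ := closure_mono hW2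
  -- closure of `W` is compact
  have hWb : closure W ⊆ Set.Icc (-2) 2 ×ℂ Set.Icc 0 1 := by
    refine closure_minimal ?_ (isClosed_Icc.reProdIm isClosed_Icc)
    intro z hz
    obtain ⟨k, hk⟩ := Set.mem_iUnion.1 hz
    obtain ⟨i, hi⟩ := Set.mem_iUnion.1 hk
    have hi' := subset_closure hi
    rw [hRcl] at hi'
    obtain ⟨h2, h3, h4⟩ := hεO k i hi'
    have hxx : z = phi k ((phi k).symm z) := ((phi k).apply_symm_apply z).symm
    set y := (phi k).symm z with hy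
    have hs := s_pos k
    have hre : z.re = s k * y.re := by
      rw [hxx, phi_re]
    have him : z.im = s k * y.im + s k := by
      rw [hxx, phi_im]
    have h6 := hsX2 k
    have h7 := s_le k
    have h8 : |s k * y.re| ≤ 2 := by
      rw [abs_mul, abs_of_pos hs]
      have h5 : s k * |y.re| ≤ s k * (X k + 1) := by gcongr
      linarith
    have h9 : s k * y.im ≤ s k * 1 := by gcongr
    have h10 : 0 < s k * y.im := mul_pos hs h3
    rw [abs_le] at h8
    rw [Complex.mem_reProdIm, hre, him]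
    exact ⟨h8, by linarith, by linarith⟩
  have hbox : ∀ a b c d : ℝ, IsCompact (Set.Icc a b ×ℂ Set.Icc c d) :=
    fun a b c d => isCompact_Icc.reProdIm isCompact_Icc
  have hWc : IsCompact (closure W) := (hbox _ _ _ _).of_isClosed_subset isClosed_closure hWb
  -- bounds
  obtain ⟨M1, hM1⟩ : ∃ M1 : ℝ, ∀ z ∈ closure W, ‖V2 z‖ ≤ M1 := hWc.exists_bound_of_continuousOn (cV2.mono hcW1)
  obtain ⟨M2, hM2⟩ : ∃ M2 : ℝ, ∀ z ∈ closure W, ‖Y2 z‖ ≤ M2 := hWc.exists_bound_of_continuousOn (cY2.mono hcW2)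
  have hKp : Set.Icc (3 / 4) 2 ×ℂ Set.Icc 0 1 ⊆ S1ᶜ := by
    intro z hz h
    rw [Complex.mem_reProdIm] at hz
    have h1 : z.re ≤ 1 / 2 := h.2
    have h2 : 3 / 4 ≤ z.re := hz.1.1
    linarith
  have hKm : Set.Icc (-2) (-(3 / 4)) ×ℂ Set.Icc 0 1 ⊆ S2ᶜ := by
    intro z hz h
    rw [Complex.mem_reProdIm] at hz
    have h1 : -(1 / 2) ≤ z.re := h.2
    have h2 : z.re ≤ -(3 / 4) := hz.1.2
    linarith
  obtain ⟨M3, hM3⟩ : ∃ M3 : ℝ, ∀ z ∈ Set.Icc (3 / 4) 2 ×ℂ Set.Icc 0 1, ‖V2 z‖ ≤ M3 :=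
    (hbox _ _ _ _).exists_bound_of_continuousOn (cV2.mono (hKp.trans subset_closure))
  obtain ⟨M4, hM4⟩ : ∃ M4 : ℝ, ∀ z ∈ Set.Icc (-2) (-(3 / 4)) ×ℂ Set.Icc 0 1, ‖Y2 z‖ ≤ M4 :=
    (hbox _ _ _ _).exists_bound_of_continuousOn (cY2.mono (hKm.trans subset_closure))
  set M : ℝ := |M1| + |M2| + |M3| + |M4| with hMdef
  have a1 := abs_nonneg M1
  have a2 := abs_nonneg M2
  have a3 := abs_nonneg M3
  have a4 := abs_nonneg M4
  have b1 := le_abs_self M1
  have b2 := le_abs_self M2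
  have b3 := le_abs_self M3
  have b4 := le_abs_self M4
  have hM0 : 0 ≤ M := by positivity
  -- segments are in `W`
  have hsegW : ∀ k (i : Sg (N k)), ∀ t : ℝ, 0 < t → t < 1 →
      phi k (lq (N k) i + t * (rq (N k) i - lq (N k) i)) ∈ W := by
    intro k i t ht ht'
    refine hRW k i ?_
    refine Set.mem_preimage.2 ?_
    rw [(phi k).symm_apply_apply]
    exact (hrho k i).2.2.2.1 t ht ht'
  have hsegC : ∀ k (i : Sg (N k)), ∀ t : ℝ, 0 ≤ t → t ≤ 1 →
      phi k (lq (N k) i + t * (rq (N k) i - lq (N k) i)) ∈ closure (R k i) := by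
    intro k i t ht ht'
    rw [hRcl, Set.mem_preimage, (phi k).symm_apply_apply]
    refine (hrho k i).2.2.2.2.1 ?_
    rw [segment_eq_image]
    refine ⟨t, ⟨ht, ht'⟩, ?_⟩
    simp only [Complex.real_smul]
    push_cast
    ring
  have hsegW' : ∀ k (i : Sg (N k)), ∀ t : ℝ, 0 ≤ t → t ≤ 1 →
      phi k (lq (N k) i + t * (rq (N k) i - lq (N k) i)) ∈ closure W := fun k i t ht ht' =>
    closure_mono (hRW k i) (hsegC k i t ht ht')
  -- fluxes
  have hF1 : ∀ k, ‖TL (N k) (fun z => V0 (phi k z)) (fun z => s k * V1 (phi k z))‖ ≤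
      2 * (M * (s k) ^ 2 * (1 / 4 : ℝ) ^ k) := by
    intro k
    have e1 := flux_of hSegm hFlux (N k) k W M hM0 V0 V1 V2 (cV0.mono hcW1) (cV1.mono hcW1)
      (cV2.mono hcW1) (fun z hz => dV0 z (hW1 hz)) (fun z hz => dV1 z (hW1 hz))
      (fun z hz => (hM1 z hz).trans (by linarith)) (hsegW k) (hsegW' k)
    have e2 := line_right hLine (N k) k S1ᶜ hS1cl.isOpen_compl f1 hf1.1 V0 V1 eV0 eV1 M hM0 ?_
    · have e3 : ‖TL (N k) (fun z => V0 (phi k z)) (fun z => s k * V1 (phi k z))‖ ≤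
          ‖TR (N k) (fun z => V0 (phi k z)) (fun z => s k * V1 (phi k z))‖ +
          ‖TR (N k) (fun z => V0 (phi k z)) (fun z => s k * V1 (phi k z)) -
            TL (N k) (fun z => V0 (phi k z)) (fun z => s k * V1 (phi k z))‖ := by
        have := norm_sub_le (TR (N k) (fun z => V0 (phi k z)) (fun z => s k * V1 (phi k z)))
          (TR (N k) (fun z => V0 (phi k z)) (fun z => s k * V1 (phi k z)) -
            TL (N k) (fun z => V0 (phi k z)) (fun z => s k * V1 (phi k z)))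
        rwa [sub_sub_cancel] at this
      linarith
    · intro t ht ht'
      have hmem : phi k ⟨X k, t⟩ ∈ Set.Icc (3 / 4) 2 ×ℂ Set.Icc 0 1 := by
        have hs := s_pos k
        have h7 := s_le k
        rw [Complex.mem_reProdIm, phi_re, phi_im]
        have h1 : s k * t ≤ s k * 1 := by gcongr
        have h2 := hsX2 k
        exact ⟨⟨hsX1 k, by simp only; linarith⟩, by positivity, by simp only; linarith⟩
      refine ⟨hKp hmem, ?_⟩
      rw [← eV2 (hKp hmem)]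
      exact (hM3 _ hmem).trans (by linarith)
  have hF2 : ∀ k, ‖TL (N k) (fun z => Y0 (phi k z)) (fun z => s k * Y1 (phi k z))‖ ≤
      M * (s k) ^ 2 * (1 / 4 : ℝ) ^ k := by
    intro k
    refine line_left hLine (N k) k S2ᶜ hS2cl.isOpen_compl f2 hf2.1 Y0 Y1 eY0 eY1 M hM0 ?_
    intro t ht ht'
    have hmem : phi k ⟨-X k, t⟩ ∈ Set.Icc (-2) (-(3 / 4)) ×ℂ Set.Icc 0 1 := by
      have hs := s_pos k
      have h7 := s_le k
      rw [Complex.mem_reProdIm, phi_re, phi_im]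
      have h1 := hsX1 k
      have h2 := hsX2 k
      have h3 : s k * t ≤ s k * 1 := by gcongr
      exact ⟨⟨by simp only; linarith, by simp only; linarith⟩, by positivity, by simp only; linarith⟩
    refine ⟨hKm hmem, ?_⟩
    rw [← eY2 (hKm hmem)]
    exact (hM4 _ hmem).trans (by linarith)
  -- the extensions of `f`
  obtain ⟨g0, cg0, eg0, vg0⟩ := hfg 0 (by norm_num)
  obtain ⟨g1, cg1, eg1, vg1⟩ := hfg 1 (by norm_num)
  rw [iteratedDeriv_zero] at eg0
  rw [iteratedDeriv_one] at eg1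
  have hg0 : Set.EqOn g0 (fun z => V0 z + Y0 z) (closure W) := by
    refine Set.EqOn.of_subset_closure (s := W) ?_ cg0 ((cV0.mono hcW1).add (cY0.mono hcW2))
      subset_closure subset_rfl
    intro z hz
    rw [eg0 hz, hff hz, Pi.add_apply]
    simp only
    rw [eV0 (hW1 hz), eY0 (hW2 hz)]
  have hg1 : Set.EqOn g1 (fun z => V1 z + Y1 z) (closure W) := by
    refine Set.EqOn.of_subset_closure (s := W) ?_ cg1 ((cV1.mono hcW1).add (cY1.mono hcW2))
      subset_closure subset_rfl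
    intro z hz
    have h1 : f =ᶠ[𝓝 z] f1 + f2 := by
      filter_upwards [hWo.mem_nhds hz] with y hy
      exact hff hy
    rw [eg1 hz, h1.deriv_eq, deriv_add (hf1.1.differentiableAt (hS1cl.isOpen_compl.mem_nhds (hW1 hz)))
      (hf2.1.differentiableAt (hS2cl.isOpen_compl.mem_nhds (hW2 hz)))]
    simp only
    rw [eV1 (hW1 hz), eY1 (hW2 hz)]
  -- the contradiction
  have hfin : ∀ k : ℕ, 1 ≤ 3 * M * (1 / 2 : ℝ) ^ k := by
    intro k
    have hs := s_pos k
    have hstart : ∀ e, (hm : 0 < (N k).m e) → phi k ((N k).z e 0) ∈ closure (R k ⟨e, 0, hm⟩) := by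
      intro e hm
      have h := hsegC k ⟨e, 0, hm⟩ 0 le_rfl zero_le_one
      simp only [Complex.ofReal_zero, zero_mul, add_zero] at h
      exact h
    have hA : TL (N k) (fun z => g0 (phi k z)) (fun z => s k * g1 (phi k z)) =
        TL (N k) (fun z => V0 (phi k z)) (fun z => s k * V1 (phi k z)) +
        TL (N k) (fun z => Y0 (phi k z)) (fun z => s k * Y1 (phi k z)) := by
      unfold TL
      rw [← Finset.sum_add_distrib]
      refine Finset.sum_congr rfl fun e _ => ?_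
      split_ifs with hre
      · have hmem : phi k ((N k).z e 0) ∈ closure W :=
          closure_mono (hRW k _) (hstart e ((N k).hm e))
        simp only
        rw [hg0 hmem, hg1 hmem]
        ring
      · simp
    have hB : TL (N k) (fun z => g0 (phi k z)) (fun z => s k * g1 (phi k z)) =
        ((1 / 2 : ℝ) ^ k * (s k) ^ 2 : ℝ) * ∑ e, (if ((N k).z e 0).re = -(X k) then
          (N k).j1 e 0 * ((N k).a e * (N k).z e 0 + (N k).b e) - (N k).j0 e 0 * (N k).a e else 0) := by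
      unfold TL
      rw [Finset.mul_sum]
      refine Finset.sum_congr rfl fun e _ => ?_
      split_ifs with hre
      · have hmem := hstart e ((N k).hm e)
        simp only
        rw [vg0 k _ _ hmem, vg1 k _ _ hmem]
        simp only [Function.iterate_zero, id_eq, Function.iterate_one]
        rw [hP0, hP1, (phi k).symm_apply_apply]
        have h1 : ((Q k ⟨e, 0, (N k).hm e⟩).eval ((N k).z e 0)) = (N k).j0 e 0 :=
          (hQj k ⟨e, 0, (N k).hm e⟩).1
        have h2 : ((Q k ⟨e, 0, (N k).hm e⟩).derivative.eval ((N k).z e 0)) = (N k).j1 e 0 :=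
          (hQj k ⟨e, 0, (N k).hm e⟩).2
        rw [h1, h2]
        push_cast
        ring
      · simp
    have h1 : ((1 / 2 : ℝ) ^ k * (s k) ^ 2) ≤ 3 * (M * (s k) ^ 2 * (1 / 4 : ℝ) ^ k) := by
      have h2 := (N k).big
      have h3 : ((1 / 2 : ℝ) ^ k * (s k) ^ 2) ≤
          ‖TL (N k) (fun z => g0 (phi k z)) (fun z => s k * g1 (phi k z))‖ := by
        rw [hB, norm_mul, Complex.norm_real, Real.norm_of_nonneg (by positivity)]
        calc ((1 / 2 : ℝ) ^ k * (s k) ^ 2) = ((1 / 2 : ℝ) ^ k * (s k) ^ 2) * 1 := by ring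
          _ ≤ _ := by gcongr
      rw [hA] at h3
      have h4 := norm_add_le (TL (N k) (fun z => V0 (phi k z)) (fun z => s k * V1 (phi k z)))
        (TL (N k) (fun z => Y0 (phi k z)) (fun z => s k * Y1 (phi k z)))
      have h5 := hF1 k
      have h6 := hF2 k
      linarith
    have h4 : (1 / 4 : ℝ) ^ k = (1 / 2 : ℝ) ^ k * (1 / 2 : ℝ) ^ k := by
      rw [← mul_pow]
      norm_num
    rw [h4] at h1
    have h5 : 0 < (1 / 2 : ℝ) ^ k * (s k) ^ 2 := by positivity
    have h6 : (1 / 2 : ℝ) ^ k * (s k) ^ 2 * 1 ≤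
        (1 / 2 : ℝ) ^ k * (s k) ^ 2 * (3 * M * (1 / 2 : ℝ) ^ k) := by
      calc (1 / 2 : ℝ) ^ k * (s k) ^ 2 * 1 = (1 / 2 : ℝ) ^ k * (s k) ^ 2 := by ring
        _ ≤ 3 * (M * (s k) ^ 2 * ((1 / 2 : ℝ) ^ k * (1 / 2 : ℝ) ^ k)) := h1
        _ = _ := by ring
    exact le_of_mul_le_mul_left h6 h5
  obtain ⟨k, hk⟩ := exists_pow_lt_of_lt_one (by positivity : 0 < 1 / (3 * M + 1))
    (by norm_num : (1 / 2 : ℝ) < 1)
  have h1 := hfin k
  rw [lt_div_iff₀ (by positivity)] at hk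
  have h2 : (0 : ℝ) < (1 / 2 : ℝ) ^ k := by positivity
  nlinarith

end MP1707
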