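import Pool.Agent.Lib.MP_1707ab_an.N2.SpecA

section
set_option autoImplicit false

open scoped Topology BigOperators Classical
open MeasureTheory Set

namespace MP1707

namespace FluxM

theorem regroup {E : Type} [Fintype E] (w : E → ℂ) (a b : E → ℂ) (U0 U1 : ℂ → ℂ) (S : Finset ℂ) :
    ∑ e, (if w e ∈ S then U1 (w e) * (a e * w e + b e) - U0 (w e) * a e else 0) =
      ∑ P ∈ S, (U1 P * ((∑ e, if w e = P then a e else 0) * P + ∑ e, if w e = P then b e else 0) -
        U0 P * ∑ e, if w e = P then a e else 0) := by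
  have h : ∀ P : ℂ, (U1 P * ((∑ e, if w e = P then a e else 0) * P +
      ∑ e, if w e = P then b e else 0) - U0 P * ∑ e, if w e = P then a e else 0) =
      ∑ e, if w e = P then U1 (w e) * (a e * w e + b e) - U0 (w e) * a e else 0 := by
    intro P
    rw [Finset.sum_mul, ← Finset.sum_add_distrib, Finset.mul_sum, Finset.mul_sum,
      ← Finset.sum_sub_distrib]
    refine Finset.sum_congr rfl fun e _ => ?_
    split_ifs with h
    · rw [h]
    · simp
  simp_rw [h]
  rw [Finset.sum_comm]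
  refine Finset.sum_congr rfl fun e _ => ?_
  rw [Finset.sum_ite_eq]

end FluxM

open FluxM in
theorem specFlux : SpecFlux := by
  intro X δ N U0 U1 M hM0 hM
  set T : N.E → ℕ → ℂ := fun e i =>
    U1 (N.z e i) * (N.a e * N.z e i + N.b e) - U0 (N.z e i) * N.a e with hT
  -- the total telescoped sum
  have htel : ‖∑ e, (T e (N.m e) - T e 0)‖ ≤ M * δ := by
    calc ‖∑ e, (T e (N.m e) - T e 0)‖ ≤ ∑ e, ‖T e (N.m e) - T e 0‖ := norm_sum_le _ _
      _ ≤ ∑ e, ∑ i ∈ Finset.range (N.m e), M * (‖N.z e (i + 1) - N.z e i‖ *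
          max ‖N.a e * N.z e i + N.b e‖ ‖N.a e * N.z e (i + 1) + N.b e‖) := by
        refine Finset.sum_le_sum fun e _ => ?_
        rw [← Finset.sum_range_sub (T e) (N.m e)]
        refine (norm_sum_le _ _).trans (Finset.sum_le_sum fun i hi => ?_)
        have := hM e i (Finset.mem_range.1 hi)
        rw [← mul_assoc]
        exact this
      _ = M * ∑ e, ∑ i ∈ Finset.range (N.m e), ‖N.z e (i + 1) - N.z e i‖ *
          max ‖N.a e * N.z e i + N.b e‖ ‖N.a e * N.z e (i + 1) + N.b e‖ := by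
        simp_rw [Finset.mul_sum]
      _ ≤ M * δ := by gcongr; exact N.cost
  -- interior nodes
  set S : Finset ℂ := ((Finset.univ.image fun e => N.z e 0) ∪
    (Finset.univ.image fun e => N.z e (N.m e))).filter (fun P => |P.re| < X) with hS
  have hend : ∀ e, (N.z e (N.m e) ∈ S ↔ ¬ (N.z e (N.m e)).re = X) := by
    intro e
    rw [hS, Finset.mem_filter]
    constructor
    · rintro ⟨_, h⟩ h'
      rw [h'] at h
      exact absurd h (not_lt.2 (le_abs_self X))
    · intro h
      refine ⟨Finset.mem_union_right _ (Finset.mem_image_of_mem _ (Finset.mem_univ e)), ?_⟩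
      have h1 := (abs_le.1 (N.re_le e (N.m e) le_rfl)).2
      exact abs_lt.2 ⟨N.end_gt e, lt_of_le_of_ne h1 h⟩
  have hstart : ∀ e, (N.z e 0 ∈ S ↔ ¬ (N.z e 0).re = -X) := by
    intro e
    rw [hS, Finset.mem_filter]
    constructor
    · rintro ⟨_, h⟩ h'
      rw [h', abs_neg] at h
      exact absurd h (not_lt.2 (le_abs_self X))
    · intro h
      refine ⟨Finset.mem_union_left _ (Finset.mem_image_of_mem _ (Finset.mem_univ e)), ?_⟩
      have h1 := (abs_le.1 (N.re_le e 0 (Nat.zero_le _))).1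
      exact abs_lt.2 ⟨lt_of_le_of_ne h1 (Ne.symm h), N.start_lt e⟩
  have hE : ∑ e, T e (N.m e) = TR N U0 U1 + ∑ e, (if N.z e (N.m e) ∈ S then T e (N.m e) else 0) := by
    rw [TR, ← Finset.sum_add_distrib]
    refine Finset.sum_congr rfl fun e _ => ?_
    by_cases h : (N.z e (N.m e)).re = X
    · rw [if_pos h, if_neg (by rw [hend]; exact fun h' => h' h), add_zero]
    · rw [if_neg h, if_pos ((hend e).2 h), zero_add]
  have hB : ∑ e, T e 0 = TL N U0 U1 + ∑ e, (if N.z e 0 ∈ S then T e 0 else 0) := by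
    rw [TL, ← Finset.sum_add_distrib]
    refine Finset.sum_congr rfl fun e _ => ?_
    by_cases h : (N.z e 0).re = -X
    · rw [if_pos h, if_neg (by rw [hstart]; exact fun h' => h' h), add_zero]
    · rw [if_neg h, if_pos ((hstart e).2 h), zero_add]
  have hk : ∑ e, (if N.z e (N.m e) ∈ S then T e (N.m e) else 0) =
      ∑ e, (if N.z e 0 ∈ S then T e 0 else 0) := by
    have e1 := regroup (fun e => N.z e (N.m e)) N.a N.b U0 U1 S
    have e2 := regroup (fun e => N.z e 0) N.a N.b U0 U1 S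
    simp only [hT]
    rw [e1, e2]
    refine Finset.sum_congr rfl fun P hP => ?_
    have hP' : |P.re| < X := (Finset.mem_filter.1 hP).2
    rw [← N.kirA P hP', ← N.kirB P hP']
  have : TR N U0 U1 - TL N U0 U1 = ∑ e, (T e (N.m e) - T e 0) := by
    rw [Finset.sum_sub_distrib, hE, hB, hk]; ring
  rw [this]
  exact htel

end MP1707
end

section
/-!
# MP_1707ab_an, n = 2, PART A, module GLUE (helper58)

The piecewise polynomial function is in `A²`.
-/
set_option autoImplicit false

open scoped Topology BigOperators Classical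
open MeasureTheory

namespace MP1707

namespace Glue

theorem iter_poly (Q : Polynomial ℂ) (n : ℕ) :
    iteratedDeriv n (fun x => Q.eval x) = fun x => (Polynomial.derivative^[n] Q).eval x := by
  induction n with
  | zero => simp [iteratedDeriv_zero]
  | succ n ih =>
    rw [iteratedDeriv_succ, ih]
    funext x
    rw [Function.iterate_succ_apply', Polynomial.deriv]

variable {J : ℕ → Type} (R : (k : ℕ) → J k → Set ℂ) (P : (k : ℕ) → J k → Polynomial ℂ)

/-- the glued function (the `n`-th derivative) -/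
noncomputable def G (n : ℕ) (x : ℂ) : ℂ :=
  if h : ∃ k, ∃ i : J k, x ∈ closure (R k i) then
    (Polynomial.derivative^[n] (P h.choose h.choose_spec.choose)).eval x else 0

theorem layer_eq (hcl : ∀ k i, closure (R k i) ⊆
      {z | |z.re| ≤ 2 ∧ (1 / 2 : ℝ) ^ (k + 1) < z.im ∧ z.im < (1 / 2 : ℝ) ^ k})
    {k k' : ℕ} {i : J k} {i' : J k'} {x : ℂ} (h : x ∈ closure (R k i)) (h' : x ∈ closure (R k' i')) :
    k = k' := by
  have h1 := (hcl k i h).2
  have h2 := (hcl k' i' h').2
  rcases lt_trichotomy k k' with hlt | heq | hgt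
  · have := pow_le_pow_of_le_one (by norm_num : (0 : ℝ) ≤ 1 / 2) (by norm_num) (Nat.succ_le_of_lt hlt)
    have h3 := h1.1
    have h4 := h2.2
    simp only [Nat.succ_eq_add_one] at this
    linarith
  · exact heq
  · have := pow_le_pow_of_le_one (by norm_num : (0 : ℝ) ≤ 1 / 2) (by norm_num) (Nat.succ_le_of_lt hgt)
    have h3 := h1.2
    have h4 := h2.1
    simp only [Nat.succ_eq_add_one] at this
    linarith

theorem G_eq (hcl : ∀ k i, closure (R k i) ⊆
      {z | |z.re| ≤ 2 ∧ (1 / 2 : ℝ) ^ (k + 1) < z.im ∧ z.im < (1 / 2 : ℝ) ^ k})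
    (hag : ∀ k i j, ∀ x ∈ closure (R k i), x ∈ closure (R k j) →
      (P k i).eval x = (P k j).eval x ∧ (P k i).derivative.eval x = (P k j).derivative.eval x ∧
      (P k i).derivative.derivative.eval x = (P k j).derivative.derivative.eval x)
    {n : ℕ} (hn : n ≤ 2) {k : ℕ} {i : J k} {x : ℂ} (hx : x ∈ closure (R k i)) :
    G R P n x = (Polynomial.derivative^[n] (P k i)).eval x := by
  have h : ∃ k, ∃ i : J k, x ∈ closure (R k i) := ⟨k, i, hx⟩
  have h1 : G R P n x = (Polynomial.derivative^[n] (P h.choose h.choose_spec.choose)).eval x := by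
    unfold G
    rw [dif_pos h]
  have h2 := h.choose_spec.choose_spec
  have key : ∀ (k' : ℕ) (i' : J k'), x ∈ closure (R k' i') →
      (Polynomial.derivative^[n] (P k' i')).eval x = (Polynomial.derivative^[n] (P k i)).eval x := by
    intro k' i' hx'
    obtain rfl := layer_eq R hcl hx' hx
    obtain ⟨e0, e1, e2⟩ := hag k' i' i x hx' hx
    interval_cases n
    · simpa using e0
    · simpa using e1
    · simpa using e2
  rw [h1]
  exact key _ _ h2

theorem G_cont [∀ k, Finite (J k)] (hcl : ∀ k i, closure (R k i) ⊆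
      {z | |z.re| ≤ 2 ∧ (1 / 2 : ℝ) ^ (k + 1) < z.im ∧ z.im < (1 / 2 : ℝ) ^ k})
    (hag : ∀ k i j, ∀ x ∈ closure (R k i), x ∈ closure (R k j) →
      (P k i).eval x = (P k j).eval x ∧ (P k i).derivative.eval x = (P k j).derivative.eval x ∧
      (P k i).derivative.derivative.eval x = (P k j).derivative.derivative.eval x)
    (hb : ∀ k i, ∀ x ∈ closure (R k i), ‖(P k i).eval x‖ ≤ 2 * (1 / 2 : ℝ) ^ k ∧
      ‖(P k i).derivative.eval x‖ ≤ 2 * (1 / 2 : ℝ) ^ k ∧
      ‖(P k i).derivative.derivative.eval x‖ ≤ 2 * (1 / 2 : ℝ) ^ k)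
    {n : ℕ} (hn : n ≤ 2) :
    ContinuousOn (G R P n) (closure (⋃ k, ⋃ i, R k i)) := by
  intro x hx
  by_cases hpos : 0 < x.im
  · -- finitely many layers near `x`
    obtain ⟨K, hK⟩ := exists_pow_lt_of_lt_one (half_pos hpos) (by norm_num : (1 / 2 : ℝ) < 1)
    let T : Type := Σ k : Fin K, J k
    have : Finite T := inferInstanceAs (Finite (Σ k : Fin K, J k))
    let C : Set ℂ := ⋃ p : T, closure (R p.1 p.2)
    have hC : ContinuousOn (G R P n) C := by
      refine (locallyFinite_of_finite _).continuousOn_iUnion (fun p => isClosed_closure) ?_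
      intro p
      refine ContinuousOn.congr (f := fun x => (Polynomial.derivative^[n] (P p.1 p.2)).eval x)
        (Polynomial.continuous _).continuousOn ?_
      intro y hy
      exact G_eq R P hcl hag hn hy
    have hCcl : IsClosed C := isClosed_iUnion_of_finite fun p => isClosed_closure
    have hO : IsOpen {z : ℂ | x.im / 2 < z.im} := isOpen_lt continuous_const Complex.continuous_im
    have hxO : x ∈ {z : ℂ | x.im / 2 < z.im} := by
      show x.im / 2 < x.im
      linarith
    have hsub : {z : ℂ | x.im / 2 < z.im} ∩ (⋃ k, ⋃ i, R k i) ⊆ C := by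
      rintro y ⟨hy1, hy2⟩
      obtain ⟨k, hk⟩ := Set.mem_iUnion.1 hy2
      obtain ⟨i, hi⟩ := Set.mem_iUnion.1 hk
      have hy3 := (hcl k i (subset_closure hi)).2.2
      have hkK : k < K := by
        by_contra hcon
        push Not at hcon
        have := pow_le_pow_of_le_one (by norm_num : (0 : ℝ) ≤ 1 / 2) (by norm_num) hcon
        have hy1' : x.im / 2 < y.im := hy1
        linarith
      exact Set.mem_iUnion.2 ⟨⟨⟨k, hkK⟩, i⟩, subset_closure hi⟩
    have hsub2 : {z : ℂ | x.im / 2 < z.im} ∩ closure (⋃ k, ⋃ i, R k i) ⊆ C := by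
      refine (hO.inter_closure).trans ?_
      exact closure_minimal hsub hCcl
    have hxC : x ∈ C := hsub2 ⟨hxO, hx⟩
    refine (hC x hxC).mono_of_mem_nhdsWithin ?_
    rw [mem_nhdsWithin]
    exact ⟨_, hO, hxO, hsub2⟩
  · -- near the real line the function is small
    push Not at hpos
    have hG0 : G R P n x = 0 := by
      unfold G
      rw [dif_neg]
      rintro ⟨k, i, h⟩
      have := (hcl k i h).2.1
      have h2 : (0 : ℝ) < (1 / 2 : ℝ) ^ (k + 1) := by positivity
      linarith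
    unfold ContinuousWithinAt
    rw [hG0, Metric.tendsto_nhds]
    intro ε hε
    obtain ⟨K, hK⟩ := exists_pow_lt_of_lt_one (half_pos hε) (by norm_num : (1 / 2 : ℝ) < 1)
    have hO : IsOpen {z : ℂ | z.im < (1 / 2 : ℝ) ^ K} := isOpen_lt Complex.continuous_im continuous_const
    have hxO : x ∈ {z : ℂ | z.im < (1 / 2 : ℝ) ^ K} := by
      show x.im < (1 / 2 : ℝ) ^ K
      have : (0 : ℝ) < (1 / 2 : ℝ) ^ K := by positivity
      linarith
    filter_upwards [nhdsWithin_le_nhds (hO.mem_nhds hxO)] with y hy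
    rw [dist_zero_right]
    by_cases h : ∃ k, ∃ i : J k, y ∈ closure (R k i)
    · obtain ⟨k, i, hyk⟩ := h
      rw [G_eq R P hcl hag hn hyk]
      have h1 : ‖(Polynomial.derivative^[n] (P k i)).eval y‖ ≤ 2 * (1 / 2 : ℝ) ^ k := by
        obtain ⟨e0, e1, e2⟩ := hb k i y hyk
        interval_cases n
        · simpa using e0
        · simpa using e1
        · simpa using e2
      have h2 : K ≤ k := by
        by_contra hcon
        push Not at hcon
        have h3 := pow_le_pow_of_le_one (by norm_num : (0 : ℝ) ≤ 1 / 2) (by norm_num)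
          (Nat.succ_le_of_lt hcon)
        have h4 := (hcl k i hyk).2.1
        have h5 : y.im < (1 / 2 : ℝ) ^ K := hy
        simp only [Nat.succ_eq_add_one] at h3
        linarith
      have h3 := pow_le_pow_of_le_one (by norm_num : (0 : ℝ) ≤ 1 / 2) (by norm_num) h2
      linarith
    · unfold G
      rw [dif_neg h, norm_zero]
      exact hε

end Glue

theorem specGlue : SpecGlue := by
  intro J _ R P hop hcl hdis hag hb
  have hG : ∀ n ≤ 2, ∀ k i, ∀ x ∈ closure (R k i),
      Glue.G R P n x = (Polynomial.derivative^[n] (P k i)).eval x :=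
    fun n hn k i x hx => Glue.G_eq R P hcl hag hn hx
  have hEq : ∀ k i, Set.EqOn (Glue.G R P 0) (fun x => (P k i).eval x) (R k i) := by
    intro k i x hx
    have := hG 0 (by norm_num) k i x (subset_closure hx)
    simpa using this
  refine ⟨Glue.G R P 0, ?_, ?_⟩
  · intro x hx
    obtain ⟨k, hk⟩ := Set.mem_iUnion.1 hx
    obtain ⟨i, hi⟩ := Set.mem_iUnion.1 hk
    have h1 : Glue.G R P 0 =ᶠ[𝓝 x] fun x => (P k i).eval x := by
      filter_upwards [(hop k i).mem_nhds hi] with y hy
      exact hEq k i hy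
    exact ((P k i).differentiable.differentiableAt.congr_of_eventuallyEq h1).differentiableWithinAt
  · intro n hn
    refine ⟨Glue.G R P n, Glue.G_cont R P hcl hag hb hn, ?_, hG n hn⟩
    intro x hx
    obtain ⟨k, hk⟩ := Set.mem_iUnion.1 hx
    obtain ⟨i, hi⟩ := Set.mem_iUnion.1 hk
    rw [(hEq k i).iteratedDeriv_of_isOpen (hop k i) n hi, Glue.iter_poly]
    exact hG n hn k i x (subset_closure hi)

end MP1707
end

section
set_option autoImplicit false

open scoped Topology BigOperators Classical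
open MeasureTheory Set

namespace MP1707

namespace LineM

theorem mk_eq (x t : ℝ) : (⟨x, t⟩ : ℂ) = (x : ℂ) + t * Complex.I := by
  apply Complex.ext <;> simp

/-- The line lemma for the points of a finite family on a vertical line. -/
theorem main {E : Type} [Fintype E] (x₀ δ M : ℝ) (w a b : E → ℂ) (u : ℂ → ℂ) (U : Set ℂ)
    (hM : 0 ≤ M) (hU : IsOpen U) (hu : DifferentiableOn ℂ u U)
    (h0 : ∀ e, 0 < (w e).im) (h1 : ∀ e, (w e).im < 1)
    (hA : ∑ e, (if (w e).re = x₀ then a e else 0) = 0)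
    (hB : ∑ e, (if (w e).re = x₀ then b e else 0) = 0)
    (hV : ∀ t : ℝ, 0 ≤ t → t ≤ 1 →
      ‖∑ e, (if (w e).re = x₀ ∧ (w e).im ≤ t then a e * (⟨x₀, t⟩ : ℂ) + b e else 0)‖ ≤ δ)
    (hline : ∀ t : ℝ, 0 ≤ t → t ≤ 1 →
      (⟨x₀, t⟩ : ℂ) ∈ U ∧ ‖deriv (deriv u) ⟨x₀, t⟩‖ ≤ M) :
    ‖∑ e, (if (w e).re = x₀ then deriv u (w e) * (a e * w e + b e) - u (w e) * a e else 0)‖ ≤
      M * δ := by
  set γ : ℝ → ℂ := fun t => (⟨x₀, t⟩ : ℂ) with hγdef
  have hγ : ∀ t : ℝ, HasDerivAt γ Complex.I t := by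
    intro t
    have h := ((Complex.ofRealCLM.hasDerivAt (x := t)).mul_const Complex.I).const_add (x₀ : ℂ)
    have e : γ = fun t : ℝ => (x₀ : ℂ) + Complex.ofRealCLM t * Complex.I := by
      funext t; simp [hγdef, mk_eq]
    rw [e]
    simpa using h
  have hu1 : DifferentiableOn ℂ (deriv u) U := hu.deriv hU
  set F : E → ℝ → ℂ := fun e t => deriv u (γ t) * (a e * γ t + b e) - u (γ t) * a e with hF
  have hFd : ∀ e, ∀ t ∈ Icc (0 : ℝ) 1,
      HasDerivAt (F e) (deriv (deriv u) (γ t) * Complex.I * (a e * γ t + b e)) t := by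
    intro e t ht
    have hmem : γ t ∈ U := (hline t ht.1 ht.2).1
    have d0 : HasDerivAt u (deriv u (γ t)) (γ t) :=
      (hu.differentiableAt (hU.mem_nhds hmem)).hasDerivAt
    have d1 : HasDerivAt (deriv u) (deriv (deriv u) (γ t)) (γ t) :=
      (hu1.differentiableAt (hU.mem_nhds hmem)).hasDerivAt
    have e0 := d0.comp_of_eq t (hγ t) rfl
    have e1 := d1.comp_of_eq t (hγ t) rfl
    have e2 : HasDerivAt (fun t => a e * γ t + b e) (a e * Complex.I) t :=
      ((hγ t).const_mul (a e)).add_const (b e)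
    refine ((e1.mul e2).sub (e0.mul_const (a e))).congr_deriv ?_
    simp only [Function.comp]
    ring
  set g : E → ℝ → ℂ := fun e t =>
    if (w e).re = x₀ then F e (max t (w e).im) - F e (w e).im else 0 with hg
  set G : ℝ → ℂ := fun t => ∑ e, g e t with hG
  have hmaxmem : ∀ e, ∀ t ∈ Icc (0 : ℝ) 1, max t (w e).im ∈ Icc (0 : ℝ) 1 := fun e t ht =>
    ⟨ht.1.trans (le_max_left _ _), max_le ht.2 (h1 e).le⟩
  have hFc : ∀ e, ContinuousOn (F e) (Icc 0 1) := fun e t ht =>
    (hFd e t ht).continuousAt.continuousWithinAt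
  have hGc : ContinuousOn G (Icc 0 1) := by
    refine continuousOn_finsetSum _ fun e _ => ?_
    simp only [hg]
    by_cases h : (w e).re = x₀
    · simp only [h, if_true]
      refine ContinuousOn.sub ?_ continuousOn_const
      exact (hFc e).comp (Continuous.continuousOn (by fun_prop)) (hmaxmem e)
    · simp only [h, if_false]
      exact continuousOn_const
  set D : ℝ → ℂ := fun t => deriv (deriv u) (γ t) * Complex.I *
    ∑ e, (if (w e).re = x₀ ∧ (w e).im ≤ t then a e * (⟨x₀, t⟩ : ℂ) + b e else 0) with hD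
  have hgd : ∀ e, ∀ t ∈ Ico (0 : ℝ) 1, HasDerivWithinAt (g e)
      (deriv (deriv u) (γ t) * Complex.I *
        (if (w e).re = x₀ ∧ (w e).im ≤ t then a e * (⟨x₀, t⟩ : ℂ) + b e else 0)) (Ici t) t := by
    intro e t ht
    by_cases h : (w e).re = x₀
    · by_cases h' : (w e).im ≤ t
      · rw [if_pos ⟨h, h'⟩]
        have hd := ((hFd e t ⟨ht.1, ht.2.le⟩).sub_const (F e (w e).im)).hasDerivWithinAt (s := Ici t)
        refine hd.congr_of_mem ?_ self_mem_Ici
        intro s hs
        simp only [hg, h, if_true]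
        rw [max_eq_left (h'.trans hs)]
      · rw [if_neg (fun hh => h' hh.2), mul_zero]
        have hlt : t < (w e).im := not_le.1 h'
        have hd : HasDerivAt (g e) 0 t := by
          refine (hasDerivAt_const t (0 : ℂ)).congr_of_eventuallyEq ?_
          filter_upwards [Iio_mem_nhds hlt] with s hs
          simp only [hg, h, if_true]
          rw [max_eq_right (le_of_lt hs), sub_self]
        exact hd.hasDerivWithinAt
    · rw [if_neg (fun hh => h hh.1), mul_zero]
      have : g e = fun _ => 0 := by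
        funext s
        simp only [hg, h, if_false]
      rw [this]
      exact hasDerivWithinAt_const _ _ _
  have hGd : ∀ t ∈ Ico (0 : ℝ) 1, HasDerivWithinAt G (D t) (Ici t) t := by
    intro t ht
    have := HasDerivWithinAt.fun_sum (u := Finset.univ) (fun e _ => hgd e t ht)
    refine this.congr_deriv ?_
    simp only [hD]
    rw [Finset.mul_sum]
  have hDb : ∀ t ∈ Ico (0 : ℝ) 1, ‖D t‖ ≤ M * δ := by
    intro t ht
    simp only [hD, norm_mul, Complex.norm_I, mul_one]
    exact mul_le_mul (hline t ht.1 ht.2.le).2 (hV t ht.1 ht.2.le) (norm_nonneg _) hM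
  have hfin := norm_image_sub_le_of_norm_deriv_right_le_segment hGc hGd hDb 1
    (right_mem_Icc.2 zero_le_one)
  have hG0 : G 0 = 0 := by
    simp only [hG, hg]
    refine Finset.sum_eq_zero fun e _ => ?_
    split_ifs
    · rw [max_eq_right (h0 e).le, sub_self]
    · rfl
  have hG1 : G 1 = - ∑ e, (if (w e).re = x₀ then
      deriv u (w e) * (a e * w e + b e) - u (w e) * a e else 0) := by
    have e1 : ∀ e, g e 1 = (deriv u (γ 1) * γ 1 - u (γ 1)) * (if (w e).re = x₀ then a e else 0) +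
        deriv u (γ 1) * (if (w e).re = x₀ then b e else 0) -
        (if (w e).re = x₀ then deriv u (w e) * (a e * w e + b e) - u (w e) * a e else 0) := by
      intro e
      by_cases h : (w e).re = x₀
      · have hw : γ (w e).im = w e := by
          simp only [hγdef, ← h]
        simp only [hg, h, if_true]
        rw [max_eq_left (h1 e).le]
        simp only [hF, hw]
        ring
      · simp only [hg, h, if_false]
        ring
    simp only [hG]
    rw [Finset.sum_congr rfl (fun e _ => e1 e), Finset.sum_sub_distrib, Finset.sum_add_distrib,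
      ← Finset.mul_sum, ← Finset.mul_sum, hA, hB]
    ring
  rw [hG0, hG1, sub_zero, norm_neg, sub_zero, mul_one] at hfin
  exact hfin

end LineM

theorem specLine : SpecLine := by
  intro X δ N u U M hM hU hu
  constructor
  · intro h
    exact LineM.main (-X) δ M (fun e => N.z e 0) N.a N.b u U hM hU hu
      (fun e => N.im_pos e 0 (Nat.zero_le _)) (fun e => N.im_lt e 0 (Nat.zero_le _))
      N.leftA N.leftB N.left h
  · intro h
    exact LineM.main X δ M (fun e => N.z e (N.m e)) N.a N.b u U hM hU hu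
      (fun e => N.im_pos e _ le_rfl) (fun e => N.im_lt e _ le_rfl)
      N.rightA N.rightB N.right h

end MP1707
end

section
/-!
# MP_1707ab_an, n = 2, PART A, module QUINT
-/
set_option autoImplicit false

open scoped Topology BigOperators
open Polynomial

namespace MP1707.QuintM

/-- linear coordinate polynomial -/
noncomputable def L (p d : ℂ) : ℂ[X] := C d⁻¹ * (X - C p)

/-- the quintic -/
noncomputable def quint (p d f0 f1 D1 D2 : ℂ) : ℂ[X] :=
  C f0 + C (f1 * d) * L p d + C D1 * (C 3 * L p d ^ 5 - C 8 * L p d ^ 4 + C 6 * L p d ^ 3) +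
    C D2 * (C 7 * L p d ^ 4 - C 3 * L p d ^ 5 - C 4 * L p d ^ 3)

theorem eval_L (p d z : ℂ) : (L p d).eval z = d⁻¹ * (z - p) := by simp [L]

theorem deriv_L (p d : ℂ) : derivative (L p d) = C d⁻¹ := by simp [L]

theorem eval0 (p d f0 f1 D1 D2 z : ℂ) : (quint p d f0 f1 D1 D2).eval z =
    f0 + f1 * d * (d⁻¹ * (z - p)) +
      D1 * (3 * (d⁻¹ * (z - p)) ^ 5 - 8 * (d⁻¹ * (z - p)) ^ 4 + 6 * (d⁻¹ * (z - p)) ^ 3) +
      D2 * (7 * (d⁻¹ * (z - p)) ^ 4 - 3 * (d⁻¹ * (z - p)) ^ 5 - 4 * (d⁻¹ * (z - p)) ^ 3) := by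
  simp [quint, L]

theorem deriv1 (p d f0 f1 D1 D2 : ℂ) (hd : d ≠ 0) : derivative (quint p d f0 f1 D1 D2) =
    C f1 + C (D1 * d⁻¹) * (C 15 * L p d ^ 4 - C 32 * L p d ^ 3 + C 18 * L p d ^ 2) +
      C (D2 * d⁻¹) * (C 28 * L p d ^ 3 - C 15 * L p d ^ 4 - C 12 * L p d ^ 2) := by
  have h : f1 * d * d⁻¹ = f1 := by field_simp
  simp only [quint, derivative_add, derivative_sub, derivative_mul, derivative_C, derivative_pow,
    deriv_L, zero_mul, zero_add]
  rw [← C_mul, h]
  simp only [C_mul, Nat.cast_ofNat, map_ofNat]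
  ring

theorem deriv2 (p d f0 f1 D1 D2 : ℂ) (hd : d ≠ 0) :
    derivative (derivative (quint p d f0 f1 D1 D2)) =
    C (D1 * d⁻¹ * d⁻¹) * (C 60 * L p d ^ 3 - C 96 * L p d ^ 2 + C 36 * L p d) +
      C (D2 * d⁻¹ * d⁻¹) * (C 84 * L p d ^ 2 - C 60 * L p d ^ 3 - C 24 * L p d) := by
  rw [deriv1 p d f0 f1 D1 D2 hd]
  simp only [derivative_add, derivative_sub, derivative_mul, derivative_C, derivative_pow,
    deriv_L, zero_mul, zero_add]
  simp only [C_mul, Nat.cast_ofNat, map_ofNat]
  ring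

theorem bound_tc {p q z : ℂ} (hz : z ∈ crho (1 / 10) p q) :
    ‖tc p q z‖ ≤ 1 ∧ ‖tc p q z - 1‖ ≤ 1 := by
  simp only [crho, Set.mem_ofPred_eq] at hz
  set t := tc p q z with ht
  have h1 : min t.re (1 - t.re) ≤ t.re := min_le_left _ _
  have h2 : min t.re (1 - t.re) ≤ 1 - t.re := min_le_right _ _
  have h0 : 0 ≤ |t.im| := abs_nonneg _
  have h3 : 0 ≤ min t.re (1 - t.re) := by nlinarith
  have hre : |t.re| = t.re := abs_of_nonneg (h3.trans h1)
  have hre' : |(t - 1).re| = 1 - t.re := by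
    rw [Complex.sub_re, Complex.one_re, abs_sub_comm, abs_of_nonneg (h3.trans h2)]
  have him' : (t - 1).im = t.im := by simp
  constructor
  · have := Complex.norm_le_abs_re_add_abs_im t
    rw [hre] at this
    linarith
  · have := Complex.norm_le_abs_re_add_abs_im (t - 1)
    rw [hre', him'] at this
    linarith

end MP1707.QuintM

namespace MP1707

open QuintM

theorem specQuint : SpecQuint := by
  intro p q f0 f1 g0 g1 hpq hd1 hf0 hf1 hD1 hD2
  have hd : q - p ≠ 0 := sub_ne_zero.2 (Ne.symm hpq)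
  set d := q - p with hdd
  have hpd : p - q = -d := by rw [hdd]; ring
  rw [hpd] at hD2
  set D1 := g0 - f0 - f1 * d with hD1'
  set D2 := f0 - g0 - g1 * -d with hD2'
  have hdn : 0 < ‖d‖ := norm_pos_iff.2 hd
  have hdi : ‖d⁻¹‖ = ‖d‖⁻¹ := norm_inv d
  have hq : d⁻¹ * (q - p) = 1 := by rw [← hdd]; exact inv_mul_cancel₀ hd
  have hp : d⁻¹ * (p - p) = 0 := by simp
  refine ⟨quint p d f0 f1 D1 D2, ?_, ?_, ?_, ?_, ?_, ?_, ?_⟩
  · rw [eval0, hp]; ring
  · rw [deriv1 _ _ _ _ _ _ hd]
    simp only [eval_add, eval_mul, eval_C, eval_sub, eval_pow, eval_L, hp]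
    ring
  · rw [deriv2 _ _ _ _ _ _ hd]
    simp only [eval_add, eval_mul, eval_C, eval_sub, eval_pow, eval_L, hp]
    ring
  · rw [eval0, hq]; simp only [hD1', hD2']; ring
  · rw [deriv1 _ _ _ _ _ _ hd]
    simp only [eval_add, eval_mul, eval_C, eval_sub, eval_pow, eval_L, hq]
    have : D1 + D2 = (g1 - f1) * d := by simp only [hD1', hD2']; ring
    have h2 : (D1 + D2) * d⁻¹ = g1 - f1 := by rw [this]; field_simp
    linear_combination h2
  · rw [deriv2 _ _ _ _ _ _ hd]
    simp only [eval_add, eval_mul, eval_C, eval_sub, eval_pow, eval_L, hq]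
    ring
  · intro z hz
    obtain ⟨h1, h2⟩ := bound_tc hz
    have htc : tc p q z = d⁻¹ * (z - p) := by rw [tc, ← hdd, div_eq_inv_mul]
    rw [htc] at h1 h2
    set t := d⁻¹ * (z - p) with ht
    have hsq : ‖d‖ ^ 2 ≤ 1 := by nlinarith
    have e1 : ‖D1‖ ≤ 1 / 100 := hD1.trans (by nlinarith)
    have e2 : ‖D2‖ ≤ 1 / 100 := hD2.trans (by nlinarith)
    have e1' : ‖D1 * d⁻¹‖ ≤ 1 / 100 := by
      rw [norm_mul, hdi, ← div_eq_mul_inv, div_le_iff₀ hdn]
      nlinarith
    have e2' : ‖D2 * d⁻¹‖ ≤ 1 / 100 := by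
      rw [norm_mul, hdi, ← div_eq_mul_inv, div_le_iff₀ hdn]
      nlinarith
    have e1'' : ‖D1 * d⁻¹ * d⁻¹‖ ≤ 1 / 100 := by
      rw [norm_mul, norm_mul, hdi, ← div_eq_mul_inv, ← div_eq_mul_inv, div_div, div_le_iff₀ (by positivity)]
      nlinarith
    have e2'' : ‖D2 * d⁻¹ * d⁻¹‖ ≤ 1 / 100 := by
      rw [norm_mul, norm_mul, hdi, ← div_eq_mul_inv, ← div_eq_mul_inv, div_div, div_le_iff₀ (by positivity)]
      nlinarith
    have pw : ∀ n : ℕ, ‖t ^ n‖ ≤ 1 := fun n => by
      rw [norm_pow]; exact pow_le_one₀ (norm_nonneg _) h1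
    have lin : ∀ (c : ℝ), 0 ≤ c → ∀ (n : ℕ), ‖(c : ℂ) * t ^ n‖ ≤ c := fun c hc n => by
      rw [norm_mul, Complex.norm_real, Real.norm_of_nonneg hc]
      exact mul_le_of_le_one_right hc (pw n)
    refine ⟨?_, ?_, ?_⟩
    · rw [eval0, ← ht]
      have a1 : ‖f1 * d * t‖ ≤ 1 / 2 := by
        rw [norm_mul, norm_mul]
        have := mul_le_mul (mul_le_mul hf1 hd1 (norm_nonneg _) (by norm_num)) h1 (norm_nonneg _)
          (by norm_num)
        linarith
      have a2 : ‖D1 * (3 * t ^ 5 - 8 * t ^ 4 + 6 * t ^ 3)‖ ≤ 17 / 100 := by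
        rw [norm_mul]
        have b1 := lin 3 (by norm_num) 5
        have b2 := lin 8 (by norm_num) 4
        have b3 := lin 6 (by norm_num) 3
        push_cast at b1 b2 b3
        have b4 : ‖3 * t ^ 5 - 8 * t ^ 4 + 6 * t ^ 3‖ ≤ 17 :=
          (norm_add_le _ _).trans (by linarith [norm_sub_le (3 * t ^ 5) (8 * t ^ 4)])
        have := mul_le_mul e1 b4 (norm_nonneg _) (by norm_num)
        linarith
      have a3 : ‖D2 * (7 * t ^ 4 - 3 * t ^ 5 - 4 * t ^ 3)‖ ≤ 14 / 100 := by
        rw [norm_mul]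
        have b1 := lin 7 (by norm_num) 4
        have b2 := lin 3 (by norm_num) 5
        have b3 := lin 4 (by norm_num) 3
        push_cast at b1 b2 b3
        have b4 : ‖7 * t ^ 4 - 3 * t ^ 5 - 4 * t ^ 3‖ ≤ 14 :=
          (norm_sub_le _ _).trans (by linarith [norm_sub_le (7 * t ^ 4) (3 * t ^ 5)])
        have := mul_le_mul e2 b4 (norm_nonneg _) (by norm_num)
        linarith
      refine (norm_add_le _ _).trans ?_
      refine (add_le_add_left ((norm_add_le _ _).trans (add_le_add_left (norm_add_le _ _) _)) _).trans ?_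
      linarith
    · rw [deriv1 _ _ _ _ _ _ hd]
      simp only [eval_add, eval_mul, eval_C, eval_sub, eval_pow, eval_L]
      rw [← ht]
      have a2 : ‖D1 * d⁻¹ * (15 * t ^ 4 - 32 * t ^ 3 + 18 * t ^ 2)‖ ≤ 65 / 100 := by
        rw [norm_mul]
        have b1 := lin 15 (by norm_num) 4
        have b2 := lin 32 (by norm_num) 3
        have b3 := lin 18 (by norm_num) 2
        push_cast at b1 b2 b3
        have b4 : ‖15 * t ^ 4 - 32 * t ^ 3 + 18 * t ^ 2‖ ≤ 65 :=
          (norm_add_le _ _).trans (by linarith [norm_sub_le (15 * t ^ 4) (32 * t ^ 3)])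
        have := mul_le_mul e1' b4 (norm_nonneg _) (by norm_num)
        linarith
      have a3 : ‖D2 * d⁻¹ * (28 * t ^ 3 - 15 * t ^ 4 - 12 * t ^ 2)‖ ≤ 55 / 100 := by
        rw [norm_mul]
        have b1 := lin 28 (by norm_num) 3
        have b2 := lin 15 (by norm_num) 4
        have b3 := lin 12 (by norm_num) 2
        push_cast at b1 b2 b3
        have b4 : ‖28 * t ^ 3 - 15 * t ^ 4 - 12 * t ^ 2‖ ≤ 55 :=
          (norm_sub_le _ _).trans (by linarith [norm_sub_le (28 * t ^ 3) (15 * t ^ 4)])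
        have := mul_le_mul e2' b4 (norm_nonneg _) (by norm_num)
        linarith
      refine (norm_add_le _ _).trans ?_
      refine (add_le_add_left (norm_add_le _ _) _).trans ?_
      linarith
    · rw [deriv2 _ _ _ _ _ _ hd]
      simp only [eval_add, eval_mul, eval_C, eval_sub, eval_pow, eval_L]
      rw [← ht]
      have key : D1 * d⁻¹ * d⁻¹ * (60 * t ^ 3 - 96 * t ^ 2 + 36 * t) +
          D2 * d⁻¹ * d⁻¹ * (84 * t ^ 2 - 60 * t ^ 3 - 24 * t) =
          t * (t - 1) * (D1 * d⁻¹ * d⁻¹ * (60 * t - 36) - D2 * d⁻¹ * d⁻¹ * (60 * t - 24)) := by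
        ring
      rw [key]
      have c1 : ‖(60 * t - 36 : ℂ)‖ ≤ 96 := by
        refine (norm_sub_le _ _).trans ?_
        have := lin 60 (by norm_num) 1
        push_cast at this
        rw [pow_one] at this
        have h36 : ‖(36 : ℂ)‖ = 36 := by simp
        linarith
      have c2 : ‖(60 * t - 24 : ℂ)‖ ≤ 84 := by
        refine (norm_sub_le _ _).trans ?_
        have := lin 60 (by norm_num) 1
        push_cast at this
        rw [pow_one] at this
        have h36 : ‖(24 : ℂ)‖ = 24 := by simp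
        linarith
      have c3 : ‖D1 * d⁻¹ * d⁻¹ * (60 * t - 36) - D2 * d⁻¹ * d⁻¹ * (60 * t - 24)‖ ≤ 180 / 100 := by
        refine (norm_sub_le _ _).trans ?_
        have k1 : ‖D1 * d⁻¹ * d⁻¹ * (60 * t - 36)‖ ≤ 1 / 100 * 96 := by
          rw [norm_mul]; exact mul_le_mul e1'' c1 (norm_nonneg _) (by norm_num)
        have k2 : ‖D2 * d⁻¹ * d⁻¹ * (60 * t - 24)‖ ≤ 1 / 100 * 84 := by
          rw [norm_mul]; exact mul_le_mul e2'' c2 (norm_nonneg _) (by norm_num)
        linarith
      rw [norm_mul, norm_mul]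
      have c4 : ‖t‖ * ‖t - 1‖ ≤ 1 := mul_le_one₀ h1 (norm_nonneg _) h2
      have := mul_le_mul c4 c3 (norm_nonneg _) (by norm_num)
      linarith

end MP1707
end

section
/-!
# MP_1707ab_an, Part A, module RHO: elementary properties of rhombi
-/
set_option autoImplicit false

open scoped Topology BigOperators Classical
open MeasureTheory

namespace MP1707

namespace RhoM

/-- the gauge of the rhombus -/
noncomputable def gauge (ε : ℝ) (p q z : ℂ) : ℝ :=
  ε * min (tc p q z).re (1 - (tc p q z).re) - |(tc p q z).im|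

theorem continuous_tc (p q : ℂ) : Continuous (tc p q) := by
  unfold tc
  exact (continuous_id.sub continuous_const).div_const _

theorem continuous_gauge (ε : ℝ) (p q : ℂ) : Continuous (gauge ε p q) := by
  unfold gauge
  have h := continuous_tc p q
  exact (continuous_const.mul ((Complex.continuous_re.comp h).min
    (continuous_const.sub (Complex.continuous_re.comp h)))).sub (Complex.continuous_im.comp h).abs

theorem rho_eq (ε : ℝ) (p q : ℂ) : rho ε p q = {z | 0 < gauge ε p q z} := by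
  ext z; simp only [rho, gauge, Set.mem_ofPred_eq, sub_pos]

theorem crho_eq (ε : ℝ) (p q : ℂ) : crho ε p q = {z | 0 ≤ gauge ε p q z} := by
  ext z; simp only [crho, gauge, Set.mem_ofPred_eq, sub_nonneg]

theorem isOpen_rho (ε : ℝ) (p q : ℂ) : IsOpen (rho ε p q) := by
  rw [rho_eq]; exact isOpen_lt continuous_const (continuous_gauge ε p q)

theorem isClosed_crho (ε : ℝ) (p q : ℂ) : IsClosed (crho ε p q) := by
  rw [crho_eq]; exact isClosed_le continuous_const (continuous_gauge ε p q)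

theorem rho_subset (ε : ℝ) (p q : ℂ) : rho ε p q ⊆ crho ε p q := by
  rw [rho_eq, crho_eq]
  intro z hz
  have : 0 < gauge ε p q z := hz
  exact this.le

theorem eq_tc {p q : ℂ} (h : p ≠ q) (z : ℂ) : z = p + tc p q z * (q - p) := by
  have h' : q - p ≠ 0 := sub_ne_zero.mpr h.symm
  unfold tc; field_simp; ring

theorem tc_line {p q : ℂ} (h : p ≠ q) (t : ℂ) : tc p q (p + t * (q - p)) = t := by
  have h' : q - p ≠ 0 := sub_ne_zero.mpr h.symm
  unfold tc; field_simp; ring

theorem bounds {ε : ℝ} {p q z : ℂ} (hε : 0 < ε) (hz : z ∈ crho ε p q) :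
    0 ≤ (tc p q z).re ∧ (tc p q z).re ≤ 1 ∧ |(tc p q z).im| ≤ ε := by
  have h : |(tc p q z).im| ≤ ε * min (tc p q z).re (1 - (tc p q z).re) := hz
  have h0 : 0 ≤ min (tc p q z).re (1 - (tc p q z).re) := by
    by_contra hn
    have := mul_neg_of_pos_of_neg hε (not_le.mp hn)
    have h1 := abs_nonneg (tc p q z).im
    linarith
  have h1 := h0.trans (min_le_left _ _)
  have h2 := h0.trans (min_le_right _ _)
  refine ⟨h1, by linarith, h.trans ?_⟩
  have h3 : min (tc p q z).re (1 - (tc p q z).re) ≤ 1 := (min_le_right _ _).trans (by linarith)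
  nlinarith

theorem real_mem {ε : ℝ} {p q : ℂ} (hε : 0 < ε) (h : p ≠ q) {t : ℝ} (h0 : 0 < t) (h1 : t < 1) :
    p + t * (q - p) ∈ rho ε p q := by
  have := tc_line h (t : ℂ)
  simp only [rho, Set.mem_ofPred_eq, this, Complex.ofReal_im, Complex.ofReal_re, abs_zero]
  exact mul_pos hε (lt_min h0 (by linarith))

theorem crho_subset_closure {ε : ℝ} {p q : ℂ} (hε : 0 < ε) (h : p ≠ q) :
    crho ε p q ⊆ closure (rho ε p q) := by
  intro z hz
  obtain ⟨h0, h1, -⟩ := bounds hε hz
  have hz' : |(tc p q z).im| ≤ ε * min (tc p q z).re (1 - (tc p q z).re) := hz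
  set w := tc p q z with hw
  -- the path towards the centre
  let γ : ℝ → ℂ := fun s => p + ((1 - s : ℝ) * w + (s / 2 : ℝ)) * (q - p)
  have hγ : Continuous γ := by
    unfold γ; fun_prop
  have hγ0 : γ 0 = z := by
    have := eq_tc h z
    simp only [γ, sub_zero, Complex.ofReal_one, one_mul, zero_div, Complex.ofReal_zero, add_zero]
    rw [hw]; exact this.symm
  have hmem : ∀ s ∈ Set.Ioc (0 : ℝ) 1, γ s ∈ rho ε p q := by
    intro s hs
    have htc : tc p q (γ s) = (1 - s : ℝ) * w + (s / 2 : ℝ) := tc_line h _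
    have him : (tc p q (γ s)).im = (1 - s) * w.im := by
      rw [htc]; simp
    have hre : (tc p q (γ s)).re = (1 - s) * w.re + s / 2 := by
      rw [htc]; simp
    simp only [rho, Set.mem_ofPred_eq]
    rw [him, hre, abs_mul, abs_of_nonneg (by linarith [hs.2] : (0 : ℝ) ≤ 1 - s)]
    have hmin : (1 - s) * min w.re (1 - w.re) + s / 2 ≤
        min ((1 - s) * w.re + s / 2) (1 - ((1 - s) * w.re + s / 2)) := by
      refine le_min ?_ ?_
      · have := mul_le_mul_of_nonneg_left (min_le_left w.re (1 - w.re))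
          (by linarith [hs.2] : (0 : ℝ) ≤ 1 - s)
        linarith
      · have := mul_le_mul_of_nonneg_left (min_le_right w.re (1 - w.re))
          (by linarith [hs.2] : (0 : ℝ) ≤ 1 - s)
        linarith
    have h3 := mul_le_mul_of_nonneg_left hz' (by linarith [hs.2] : (0 : ℝ) ≤ 1 - s)
    have h4 := mul_le_mul_of_nonneg_left hmin hε.le
    have h5 : 0 < ε * (s / 2) := mul_pos hε (by linarith [hs.1])
    nlinarith
  have hlim : Filter.Tendsto γ (𝓝[>] 0) (𝓝 z) := by
    rw [← hγ0]; exact (hγ.tendsto 0).mono_left nhdsWithin_le_nhds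
  refine mem_closure_of_tendsto hlim ?_
  filter_upwards [Ioc_mem_nhdsGT (zero_lt_one' ℝ)] with s hs
  exact hmem s hs

theorem closure_rho {ε : ℝ} {p q : ℂ} (hε : 0 < ε) (h : p ≠ q) :
    closure (rho ε p q) = crho ε p q :=
  Set.Subset.antisymm (closure_minimal (rho_subset ε p q) (isClosed_crho ε p q))
    (crho_subset_closure hε h)

theorem near {ε : ℝ} {p q z : ℂ} (hε : 0 < ε) (h : p ≠ q) (hz : z ∈ crho ε p q) :
    ∃ x ∈ segment ℝ p q, ‖z - x‖ ≤ ε * ‖q - p‖ := by
  obtain ⟨h0, h1, h2⟩ := bounds hε hz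
  refine ⟨p + ((tc p q z).re : ℂ) * (q - p), ?_, ?_⟩
  · rw [segment_eq_image']
    exact ⟨(tc p q z).re, ⟨h0, h1⟩, by simp only [Complex.real_smul]⟩
  · have e : z - (p + ((tc p q z).re : ℂ) * (q - p)) = ((tc p q z).im * Complex.I) * (q - p) := by
      have h3 := eq_tc h z
      have h4 := Complex.re_add_im (tc p q z)
      calc z - (p + ((tc p q z).re : ℂ) * (q - p))
          = (p + tc p q z * (q - p)) - (p + ((tc p q z).re : ℂ) * (q - p)) := by rw [← h3]
        _ = (tc p q z - ((tc p q z).re : ℂ)) * (q - p) := by ring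
        _ = ((tc p q z).im * Complex.I) * (q - p) := by
            congr 1
            linear_combination -h4
    rw [e, norm_mul, norm_mul, Complex.norm_I, mul_one, Complex.norm_real, Real.norm_eq_abs]
    exact mul_le_mul_of_nonneg_right h2 (norm_nonneg _)

theorem isCompact_crho {ε : ℝ} {p q : ℂ} (hε : 0 < ε) (h : p ≠ q) : IsCompact (crho ε p q) := by
  refine Metric.isCompact_of_isClosed_isBounded (isClosed_crho ε p q) ?_
  rw [Metric.isBounded_iff_subset_closedBall p]
  refine ⟨ε * ‖q - p‖ + ‖q - p‖, fun z hz => ?_⟩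
  obtain ⟨x, hx, hzx⟩ := near hε h hz
  rw [segment_eq_image'] at hx
  obtain ⟨t, ht, rfl⟩ := hx
  rw [mem_closedBall_iff_norm]
  calc ‖z - p‖ = ‖(z - (p + t • (q - p))) + t • (q - p)‖ := by congr 1; abel
    _ ≤ ‖z - (p + t • (q - p))‖ + ‖t • (q - p)‖ := norm_add_le _ _
    _ ≤ ε * ‖q - p‖ + ‖q - p‖ := by
        refine add_le_add hzx ?_
        rw [norm_smul, Real.norm_eq_abs, abs_of_nonneg ht.1]
        exact mul_le_of_le_one_left (norm_nonneg _) ht.2

theorem segment_subset {ε : ℝ} {p q : ℂ} (hε : 0 < ε) (h : p ≠ q) :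
    segment ℝ p q ⊆ crho ε p q := by
  intro x hx
  rw [segment_eq_image'] at hx
  obtain ⟨t, ht, rfl⟩ := hx
  have := tc_line h (t : ℂ)
  simp only [crho, Set.mem_ofPred_eq, Complex.real_smul, this, Complex.ofReal_im,
    Complex.ofReal_re, abs_zero]
  exact mul_nonneg hε.le (le_min ht.1 (by linarith [ht.2]))

theorem mono {ε ε' : ℝ} {p q : ℂ} (hε : 0 < ε) (hle : ε ≤ ε') : crho ε p q ⊆ crho ε' p q := by
  intro z hz
  obtain ⟨h0, h1, h2⟩ := bounds hε hz
  have hz' : |(tc p q z).im| ≤ ε * min (tc p q z).re (1 - (tc p q z).re) := hz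
  exact hz'.trans (mul_le_mul_of_nonneg_right hle (le_min h0 (by linarith)))

end RhoM

/-- RHO -/
theorem specRho : SpecRho := fun _ _ _ hε h =>
  ⟨RhoM.isOpen_rho _ _ _, RhoM.closure_rho hε h, RhoM.isCompact_crho hε h,
    fun _ h0 h1 => RhoM.real_mem hε h h0 h1, RhoM.segment_subset hε h,
    fun _ hle => RhoM.mono hε hle, fun _ hz => RhoM.near hε h hz⟩

end MP1707
end

section
set_option autoImplicit false

open scoped Topology BigOperators Classical
open MeasureTheory Set

namespace MP1707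

theorem specSegm : SpecSegm := by
  intro p q a b M U0 U1 U2 h0 h1 h2 d0 d1 hM
  set γ : ℝ → ℂ := fun t => p + t * (q - p) with hγdef
  have hγ : ∀ t : ℝ, HasDerivAt γ (q - p) t := by
    intro t
    have h := ((Complex.ofRealCLM.hasDerivAt (x := t)).mul_const (q - p)).const_add p
    simpa [hγdef] using h
  have hγc : Continuous γ := continuous_iff_continuousAt.2 fun t => (hγ t).continuousAt
  set G : ℝ → ℂ := fun t => U1 (γ t) * (a * γ t + b) - U0 (γ t) * a with hG
  have hA : Continuous fun t => a * γ t + b := by fun_prop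
  have hGc : ContinuousOn G (Icc 0 1) :=
    (h1.mul hA.continuousOn).sub (h0.mul continuousOn_const)
  set G' : ℝ → ℂ := fun t => U2 (γ t) * (a * γ t + b) * (q - p) with hG'
  have hG'c : ContinuousOn G' (Icc 0 1) := (h2.mul hA.continuousOn).mul continuousOn_const
  have hder : ∀ t ∈ Ioo (0 : ℝ) 1, HasDerivWithinAt G (G' t) (Ioi t) t := by
    intro t ht
    have e0 := (d0 t ht.1 ht.2).comp_of_eq t (hγ t) rfl
    have e1 := (d1 t ht.1 ht.2).comp_of_eq t (hγ t) rfl
    have e2 : HasDerivAt (fun t => a * γ t + b) (a * (q - p)) t :=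
      ((hγ t).const_mul a).add_const b
    have e3 := (e1.mul e2).sub (e0.mul_const a)
    have e4 : HasDerivAt G (G' t) t := by
      refine e3.congr_deriv ?_
      simp only [hG', Function.comp]
      ring
    exact e4.hasDerivWithinAt
  have hint := intervalIntegral.integral_eq_sub_of_hasDeriv_right_of_le zero_le_one hGc hder
    (hG'c.intervalIntegrable_of_Icc zero_le_one)
  have hmax : ∀ t : ℝ, 0 ≤ t → t ≤ 1 → ‖a * γ t + b‖ ≤ max ‖a * p + b‖ ‖a * q + b‖ := by
    intro t ht0 ht1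
    have e : a * γ t + b = ((1 - t : ℝ) : ℂ) * (a * p + b) + (t : ℂ) * (a * q + b) := by
      simp only [hγdef]; push_cast; ring
    rw [e]
    refine (norm_add_le _ _).trans ?_
    rw [norm_mul, norm_mul, Complex.norm_real, Complex.norm_real, Real.norm_of_nonneg ht0,
      Real.norm_of_nonneg (sub_nonneg.2 ht1)]
    have m1 := le_max_left ‖a * p + b‖ ‖a * q + b‖
    have m2 := le_max_right ‖a * p + b‖ ‖a * q + b‖
    nlinarith
  have hb : ∀ t ∈ Set.uIoc (0 : ℝ) 1, ‖G' t‖ ≤ M * ‖q - p‖ * max ‖a * p + b‖ ‖a * q + b‖ := by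
    intro t ht
    rw [Set.uIoc_of_le zero_le_one] at ht
    have m1 := hM t ht.1.le ht.2
    have m2 := hmax t ht.1.le ht.2
    simp only [hG', norm_mul]
    have h3 : 0 ≤ M := (norm_nonneg _).trans m1
    calc ‖U2 (γ t)‖ * ‖a * γ t + b‖ * ‖q - p‖ ≤ M * max ‖a * p + b‖ ‖a * q + b‖ * ‖q - p‖ := by
          gcongr
      _ = _ := by ring
  have hfin := intervalIntegral.norm_integral_le_of_norm_le_const hb
  rw [hint] at hfin
  have e1 : γ 1 = q := by simp [hγdef]
  have e0 : γ 0 = p := by simp [hγdef]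
  simpa [hG, e1, e0] using hfin

end MP1707
end

section
/-!
# MP_1707ab_an, n = 2, PART A, module THIN
-/
set_option autoImplicit false

open scoped Topology BigOperators
open Filter

namespace MP1707.ThinM

theorem tc_symm {p q : ℂ} (h : p ≠ q) (z : ℂ) : tc q p z = 1 - tc p q z := by
  have h1 : q - p ≠ 0 := sub_ne_zero.2 (Ne.symm h)
  have h2 : p - q ≠ 0 := sub_ne_zero.2 h
  simp only [tc]
  field_simp
  ring

theorem crho_symm {ε : ℝ} {p q : ℂ} (h : p ≠ q) : crho ε q p = crho ε p q := by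
  ext z
  simp only [crho, Set.mem_ofPred_eq]
  rw [tc_symm h z]
  simp only [Complex.sub_im, Complex.one_im, Complex.sub_re, Complex.one_re, zero_sub, abs_neg,
    sub_sub_cancel]
  rw [min_comm]

theorem crho_facts {ε : ℝ} {p q z : ℂ} (hε : 0 < ε) (hz : z ∈ crho ε p q) :
    0 ≤ (tc p q z).re ∧ (tc p q z).re ≤ 1 ∧ |(tc p q z).im| ≤ ε * (tc p q z).re ∧
      |(tc p q z).im| ≤ ε := by
  simp only [crho, Set.mem_ofPred_eq] at hz
  set t := tc p q z
  have h1 : min t.re (1 - t.re) ≤ t.re := min_le_left _ _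
  have h2 : min t.re (1 - t.re) ≤ 1 - t.re := min_le_right _ _
  have h0 : 0 ≤ |t.im| := abs_nonneg _
  have h3 : 0 ≤ min t.re (1 - t.re) := by
    by_contra h
    push Not at h
    nlinarith
  refine ⟨by linarith, by linarith, hz.trans (by gcongr), hz.trans ?_⟩
  nlinarith

theorem tc_mul {p q : ℂ} (h : p ≠ q) (z : ℂ) : tc p q z * (q - p) = z - p := by
  have h1 : q - p ≠ 0 := sub_ne_zero.2 (Ne.symm h)
  simp only [tc]
  field_simp

/-- points of the closed rhombus are close to the segment -/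
theorem near {ε : ℝ} {p q z : ℂ} (hpq : p ≠ q) (hε : 0 < ε) (hz : z ∈ crho ε p q) :
    ∃ x ∈ segment ℝ p q, ‖z - x‖ ≤ ε * ‖q - p‖ := by
  obtain ⟨h0, h1, _, h3⟩ := crho_facts hε hz
  set t := tc p q z with ht
  refine ⟨p + (t.re : ℂ) * (q - p), ?_, ?_⟩
  · rw [segment_eq_image_lineMap]
    refine ⟨t.re, ⟨h0, h1⟩, ?_⟩
    rw [AffineMap.lineMap_apply]
    simp only [vsub_eq_sub, vadd_eq_add, Complex.real_smul]
    ring
  · have e : z - (p + (t.re : ℂ) * (q - p)) = ((t.im : ℂ) * Complex.I) * (q - p) := by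
      have h4 := tc_mul hpq z
      rw [← ht] at h4
      have h5 : t = (t.re : ℂ) + (t.im : ℂ) * Complex.I := (Complex.re_add_im t).symm
      have h6 : z = p + t * (q - p) := by rw [h4]; ring
      calc z - (p + (t.re : ℂ) * (q - p)) = (t - (t.re : ℂ)) * (q - p) := by
            nth_rewrite 1 [h6]; ring
        _ = ((t.im : ℂ) * Complex.I) * (q - p) := by
            nth_rewrite 1 [h5]; ring
    rw [e, norm_mul, norm_mul, Complex.norm_I, mul_one, Complex.norm_real, Real.norm_eq_abs]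
    gcongr

theorem isCompact_segment (p q : ℂ) : IsCompact (segment ℝ p q) := by
  rw [segment_eq_image_lineMap]
  exact isCompact_Icc.image (by
    have : Continuous (fun t : ℝ => AffineMap.lineMap p q t) := AffineMap.lineMap_continuous
    exact this)

/-- thin rhombi stay in an open neighbourhood of the segment -/
theorem ev_subset {p q : ℂ} (hpq : p ≠ q) {O : Set ℂ} (hO : IsOpen O) (h : segment ℝ p q ⊆ O) :
    ∀ᶠ ε in 𝓝[>] (0 : ℝ), crho ε p q ⊆ O := by
  obtain ⟨δ, hδ, hs⟩ := (isCompact_segment p q).exists_thickening_subset_open hO h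
  have hd : 0 < ‖q - p‖ := norm_pos_iff.2 (sub_ne_zero.2 (Ne.symm hpq))
  have h1 : Set.Ioo (0 : ℝ) (δ / ‖q - p‖) ∈ 𝓝[>] (0 : ℝ) := Ioo_mem_nhdsGT (by positivity)
  filter_upwards [h1] with ε hε z hz
  obtain ⟨x, hx, hzx⟩ := near hpq hε.1 hz
  refine hs (Metric.mem_thickening_iff.2 ⟨x, hx, ?_⟩)
  rw [dist_eq_norm]
  refine hzx.trans_lt ?_
  have := hε.2
  rwa [lt_div_iff₀ hd] at this

/-- the wedge lemma at a common endpoint -/
theorem wedge {p q q' : ℂ} (h : p ≠ q) (h' : p ≠ q')
    (hpl : ∀ x ∈ segment ℝ p q, x ∈ segment ℝ p q' → (x = p ∨ x = q) ∧ (x = p ∨ x = q')) :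
    ∀ᶠ ε in 𝓝[>] (0 : ℝ), ∀ x ∈ crho ε p q, x ∈ crho ε p q' → x = p := by
  have hd : q - p ≠ 0 := sub_ne_zero.2 (Ne.symm h)
  have hd' : q' - p ≠ 0 := sub_ne_zero.2 (Ne.symm h')
  set r : ℂ := (q' - p) / (q - p) with hr
  have hrd : r * (q - p) = q' - p := by rw [hr]; field_simp
  -- r is not a positive real
  have hr1 : ¬ (0 < r.re ∧ r.im = 0) := by
    rintro ⟨h1, h2⟩
    have hrr : r = (r.re : ℂ) := by
      apply Complex.ext <;> simp [h2]
    set s := min 1 r.re / 2 with hs
    have hm : 0 < min 1 r.re := lt_min one_pos h1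
    have hs0 : 0 < s := by positivity
    have hs1 : s ≤ 1 / 2 := by
      have := min_le_left 1 r.re
      linarith
    have hs2 : s ≤ r.re / 2 := by
      have := min_le_right 1 r.re
      linarith
    have hx1 : p + (s : ℂ) * (q - p) ∈ segment ℝ p q := by
      rw [segment_eq_image_lineMap]
      refine ⟨s, ⟨hs0.le, by linarith⟩, ?_⟩
      rw [AffineMap.lineMap_apply]
      simp only [vsub_eq_sub, vadd_eq_add, Complex.real_smul]
      ring
    have hx2 : p + (s : ℂ) * (q - p) ∈ segment ℝ p q' := by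
      rw [segment_eq_image_lineMap]
      refine ⟨s / r.re, ⟨by positivity, ?_⟩, ?_⟩
      · rw [div_le_one h1]; linarith
      · rw [AffineMap.lineMap_apply]
        simp only [vsub_eq_sub, vadd_eq_add, Complex.real_smul]
        have h9 : (r.re : ℂ) ≠ 0 := by exact_mod_cast h1.ne'
        have h10 : ((s / r.re : ℝ) : ℂ) * (r * (q - p)) = (s : ℂ) * (q - p) := by
          rw [hrr]
          push_cast
          rw [Complex.ofReal_re]
          field_simp
        rw [← hrd, h10]
        ring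
    rcases (hpl _ hx1 hx2).1 with h3 | h3
    · have : (s : ℂ) * (q - p) = 0 := by linear_combination h3
      rcases mul_eq_zero.1 this with h4 | h4
      · exact hs0.ne' (by exact_mod_cast h4)
      · exact hd h4
    · have : ((s : ℂ) - 1) * (q - p) = 0 := by linear_combination h3
      rcases mul_eq_zero.1 this with h4 | h4
      · have : (s : ℂ) = ((1 : ℝ) : ℂ) := by push_cast; linear_combination h4
        have h5 : s = 1 := by exact_mod_cast this
        linarith
      · exact hd h4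
  -- choose ε0
  obtain ⟨ε0, hε0, hε1, hcone⟩ : ∃ ε0 : ℝ, 0 < ε0 ∧ ε0 ≤ 1 / 10 ∧
      (0 < r.re → 3 * ε0 * r.re < |r.im|) := by
    by_cases hre : 0 < r.re
    · have him : 0 < |r.im| := abs_pos.2 fun h0 => hr1 ⟨hre, h0⟩
      refine ⟨min (1 / 10) (|r.im| / (4 * r.re)), lt_min (by norm_num) (by positivity),
        min_le_left _ _, fun _ => ?_⟩
      have h1 := min_le_right (1 / 10) (|r.im| / (4 * r.re))
      have h2 : min (1 / 10) (|r.im| / (4 * r.re)) * (4 * r.re) ≤ |r.im| := by
        rwa [le_div_iff₀ (by positivity)] at h1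
      have h3 : 0 < min (1 / 10) (|r.im| / (4 * r.re)) := lt_min (by norm_num) (by positivity)
      nlinarith
    · exact ⟨1 / 10, by norm_num, le_rfl, fun h0 => absurd h0 hre⟩
  have h1 : Set.Ioo (0 : ℝ) ε0 ∈ 𝓝[>] (0 : ℝ) := Ioo_mem_nhdsGT hε0
  filter_upwards [h1] with ε hε x hx hx'
  obtain ⟨a0, _, a2, _⟩ := crho_facts hε.1 hx
  obtain ⟨b0, _, b2, _⟩ := crho_facts hε.1 hx'
  have e1 := tc_mul h x
  have e2 := tc_mul h' x
  set t := tc p q x with ht
  set t' := tc p q' x with ht'
  have hε' : ε ≤ 1 / 10 := hε.2.le.trans hε1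
  by_contra hxp
  have hxp' : x - p ≠ 0 := sub_ne_zero.2 hxp
  have ht'0 : t' ≠ 0 := by
    intro h0
    rw [h0, zero_mul] at e2
    exact hxp' e2.symm
  have ht0 : t ≠ 0 := by
    intro h0
    rw [h0, zero_mul] at e1
    exact hxp' e1.symm
  have e3 : t = t' * r := by
    have : t * (q - p) = t' * r * (q - p) := by
      rw [e1, ← e2, ← hrd]; ring
    exact mul_right_cancel₀ hd this
  -- real parts are positive
  have ha : 0 < t.re := by
    rcases lt_or_eq_of_le a0 with h5 | h5
    · exact h5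
    · exfalso
      rw [← h5, mul_zero] at a2
      have : t.im = 0 := abs_nonpos_iff.1 a2
      exact ht0 (Complex.ext (by simpa using h5.symm) (by simpa using this))
  have hb : 0 < t'.re := by
    rcases lt_or_eq_of_le b0 with h5 | h5
    · exact h5
    · exfalso
      rw [← h5, mul_zero] at b2
      have : t'.im = 0 := abs_nonpos_iff.1 b2
      exact ht'0 (Complex.ext (by simpa using h5.symm) (by simpa using this))
  -- |t'|^2 r = t conj t'
  have hN : 0 < t'.re ^ 2 + t'.im ^ 2 := by positivity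
  have er : (t'.re ^ 2 + t'.im ^ 2) * r.re = t.re * t'.re + t.im * t'.im := by
    rw [e3]; simp only [Complex.mul_re, Complex.mul_im]; ring
  have ei : (t'.re ^ 2 + t'.im ^ 2) * r.im = t.im * t'.re - t.re * t'.im := by
    rw [e3]; simp only [Complex.mul_re, Complex.mul_im]; ring
  have hab : 0 < t.re * t'.re := mul_pos ha hb
  have p1 : |t.im * t'.im| ≤ ε * ε * (t.re * t'.re) := by
    rw [abs_mul]
    calc |t.im| * |t'.im| ≤ (ε * t.re) * (ε * t'.re) :=
          mul_le_mul a2 b2 (abs_nonneg _) (by have := hε.1; positivity)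
      _ = _ := by ring
  have p2 : |t.im * t'.re - t.re * t'.im| ≤ 2 * ε * (t.re * t'.re) := by
    refine (abs_sub _ _).trans ?_
    rw [abs_mul, abs_mul, abs_of_pos ha, abs_of_pos hb]
    have q1 : |t.im| * t'.re ≤ ε * t.re * t'.re := mul_le_mul_of_nonneg_right a2 hb.le
    have q2 : t.re * |t'.im| ≤ t.re * (ε * t'.re) := mul_le_mul_of_nonneg_left b2 ha.le
    nlinarith
  have p3 : 9 / 10 * (t.re * t'.re) ≤ (t'.re ^ 2 + t'.im ^ 2) * r.re := by
    rw [er]
    have := neg_abs_le (t.im * t'.im)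
    have h6 : ε * ε ≤ 1 / 10 := by nlinarith [hε.1]
    nlinarith
  have hre : 0 < r.re := by
    by_contra h7
    push Not at h7
    nlinarith
  have p4 : (t'.re ^ 2 + t'.im ^ 2) * |r.im| ≤ 2 * ε * (t.re * t'.re) := by
    calc (t'.re ^ 2 + t'.im ^ 2) * |r.im| = |(t'.re ^ 2 + t'.im ^ 2) * r.im| := by
          rw [abs_mul, abs_of_pos hN]
      _ = |t.im * t'.re - t.re * t'.im| := by rw [ei]
      _ ≤ _ := p2
  have p5 : (t'.re ^ 2 + t'.im ^ 2) * |r.im| ≤ (t'.re ^ 2 + t'.im ^ 2) * (3 * ε * r.re) := by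
    have h8 : 2 * ε * (t.re * t'.re) ≤ 3 * ε * ((t'.re ^ 2 + t'.im ^ 2) * r.re) := by
      have := hε.1
      nlinarith [mul_le_mul_of_nonneg_left p3 this.le]
    linarith
  have p6 : |r.im| ≤ 3 * ε * r.re := le_of_mul_le_mul_left p5 hN
  have p7 := hcone hre
  have p8 : 3 * ε * r.re ≤ 3 * ε0 * r.re := by
    have := hε.2.le
    gcongr
  linarith

/-- the pair lemma -/
theorem pair {p q p' q' : ℂ} (h : p ≠ q) (h' : p' ≠ q')
    (hpl : ∀ x ∈ segment ℝ p q, x ∈ segment ℝ p' q' → (x = p ∨ x = q) ∧ (x = p' ∨ x = q')) :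
    ∀ᶠ ε in 𝓝[>] (0 : ℝ), ∀ x ∈ crho ε p q, x ∈ crho ε p' q' →
      (x = p ∨ x = q) ∧ (x = p' ∨ x = q') := by
  by_cases c1 : p = p'
  · subst c1
    filter_upwards [wedge h h' hpl] with ε hε x hx hx'
    have := hε x hx hx'
    exact ⟨Or.inl this, Or.inl this⟩
  by_cases c2 : p = q'
  · subst c2
    have hpl' : ∀ x ∈ segment ℝ p q, x ∈ segment ℝ p p' → (x = p ∨ x = q) ∧ (x = p ∨ x = p') := by
      intro x hx hx'
      rw [segment_symm] at hx'
      have := hpl x hx hx'
      exact ⟨this.1, this.2.symm⟩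
    filter_upwards [wedge h h'.symm hpl'] with ε hε x hx hx'
    rw [← crho_symm h'.symm] at hε
    have := hε x hx hx'
    exact ⟨Or.inl this, Or.inr this⟩
  by_cases c3 : q = p'
  · subst c3
    have hpl' : ∀ x ∈ segment ℝ q p, x ∈ segment ℝ q q' → (x = q ∨ x = p) ∧ (x = q ∨ x = q') := by
      intro x hx hx'
      rw [segment_symm] at hx
      have := hpl x hx hx'
      exact ⟨this.1.symm, this.2⟩
    filter_upwards [wedge h.symm h' hpl'] with ε hε x hx hx'
    rw [crho_symm h] at hε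
    have := hε x hx hx'
    exact ⟨Or.inr this, Or.inl this⟩
  by_cases c4 : q = q'
  · subst c4
    have hpl' : ∀ x ∈ segment ℝ q p, x ∈ segment ℝ q p' → (x = q ∨ x = p) ∧ (x = q ∨ x = p') := by
      intro x hx hx'
      rw [segment_symm] at hx hx'
      have := hpl x hx hx'
      exact ⟨this.1.symm, this.2.symm⟩
    filter_upwards [wedge h.symm h'.symm hpl'] with ε hε x hx hx'
    rw [crho_symm h, crho_symm h'] at hε
    have := hε x hx hx'
    exact ⟨Or.inr this, Or.inr this⟩
  -- disjoint segments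
  have hdis : Disjoint (segment ℝ p q) (segment ℝ p' q') := by
    rw [Set.disjoint_left]
    intro x hx hx'
    obtain ⟨h1, h2⟩ := hpl x hx hx'
    rcases h1 with h1 | h1 <;> rcases h2 with h2 | h2
    · exact c1 (h1.symm.trans h2)
    · exact c2 (h1.symm.trans h2)
    · exact c3 (h1.symm.trans h2)
    · exact c4 (h1.symm.trans h2)
  obtain ⟨U, V, hU, hV, hUs, hVs, hUV⟩ :=
    SeparatedNhds.of_isCompact_isCompact (isCompact_segment p q) (isCompact_segment p' q') hdis
  filter_upwards [ev_subset h hU hUs, ev_subset h' hV hVs] with ε h1 h2 x hx hx'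
  exact absurd (h2 hx') (Set.disjoint_left.1 hUV (h1 hx))

end MP1707.ThinM

namespace MP1707

open ThinM

theorem specThin : SpecThin := by
  intro ι _ p q O hO hne hseg hpl
  have h1 : ∀ᶠ ε in 𝓝[>] (0 : ℝ), ∀ i, crho ε (p i) (q i) ⊆ O :=
    eventually_all.2 fun i => ev_subset (hne i) hO (hseg i)
  have h2 : ∀ᶠ ε in 𝓝[>] (0 : ℝ), ∀ i j, i ≠ j → ∀ x ∈ crho ε (p i) (q i),
      x ∈ crho ε (p j) (q j) → (x = p i ∨ x = q i) ∧ (x = p j ∨ x = q j) := by
    refine eventually_all.2 fun i => eventually_all.2 fun j => ?_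
    by_cases hij : i = j
    · exact Eventually.of_forall fun ε hc => absurd hij hc
    · filter_upwards [pair (hne i) (hne j) (hpl i j hij)] with ε hε _
      exact hε
  have h3 : ∀ᶠ ε in 𝓝[>] (0 : ℝ), ε ∈ Set.Ioo (0 : ℝ) (1 / 10) := Ioo_mem_nhdsGT (by norm_num)
  obtain ⟨ε, ⟨ha, hb⟩, hc⟩ := ((h1.and h2).and h3).exists
  exact ⟨ε, hc.1, hc.2.le, ha, hb⟩

end MP1707
end
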